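import Mathlib

/-!
# Averages over finite product spaces, one coordinate at a time
-/

set_option autoImplicit false

namespace Pool.Agent.V7H89.WR

open Finset

variable {ι : Type} [Fintype ι] [DecidableEq ι]

/-- the sample space: the coordinate `i` is in `{0, ..., W i - 1}` -/
abbrev Sp (W : ι → ℕ) : Finset (ι → ℕ) := Fintype.piFinset fun i => range (W i)

lemma mem_sp {W : ι → ℕ} {x : ι → ℕ} : x ∈ Sp W ↔ ∀ i, x i < W i := by
  simp [Sp]

lemma upd_mem {W : ι → ℕ} {x : ι → ℕ} (hx : x ∈ Sp W) {u : ι} {v : ℕ} (hv : v < W u) :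
    Function.update x u v ∈ Sp W := by
  rw [mem_sp] at *
  intro i
  by_cases h : i = u
  · subst h; simpa using hv
  · rw [Function.update_of_ne h]; exact hx i

lemma card_sp (W : ι → ℕ) : ((Sp W).card : ℝ) = ∏ i, (W i : ℝ) := by
  rw [Fintype.card_piFinset]
  push_cast
  simp

/-- resampling one coordinate -/
lemma sum_upd (W : ι → ℕ) (u : ι) (f : (ι → ℕ) → ℝ) :
    ∑ x ∈ Sp W, ∑ v ∈ range (W u), f (Function.update x u v) = (W u : ℝ) * ∑ x ∈ Sp W, f x := by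
  have h1 : ∑ x ∈ Sp W, ∑ v ∈ range (W u), f (Function.update x u v) =
      ∑ p ∈ Sp W ×ˢ range (W u), f (Function.update p.1 u p.2) := by
    rw [sum_product]
  have h2 : ∑ p ∈ Sp W ×ˢ range (W u), f (Function.update p.1 u p.2) =
      ∑ p ∈ Sp W ×ˢ range (W u), f p.1 := by
    refine sum_nbij' (fun p => (Function.update p.1 u p.2, p.1 u))
      (fun p => (Function.update p.1 u p.2, p.1 u)) ?_ ?_ ?_ ?_ ?_
    · rintro ⟨x, v⟩ h
      rw [mem_product, mem_range] at h ⊢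
      exact ⟨upd_mem h.1 h.2, mem_sp.1 h.1 u⟩
    · rintro ⟨x, v⟩ h
      rw [mem_product, mem_range] at h ⊢
      exact ⟨upd_mem h.1 h.2, mem_sp.1 h.1 u⟩
    · rintro ⟨x, v⟩ _
      simp
    · rintro ⟨x, v⟩ _
      simp
    · rintro ⟨x, v⟩ _
      rfl
  rw [h1, h2, sum_product]
  simp [mul_sum]

/-- one step of a potential argument -/
lemma step_le {W : ι → ℕ} (hW : ∀ i, 0 < W i) (u : ι) (f g : (ι → ℕ) → ℝ) (q : ℝ)
    (h : ∀ x ∈ Sp W, ∑ v ∈ range (W u), g (Function.update x u v) ≤ q * W u * f x) :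
    ∑ x ∈ Sp W, g x ≤ q * ∑ x ∈ Sp W, f x := by
  have h1 := sum_upd W u g
  have h2 : ∑ x ∈ Sp W, ∑ v ∈ range (W u), g (Function.update x u v) ≤
      ∑ x ∈ Sp W, q * W u * f x := sum_le_sum h
  rw [h1, ← mul_sum] at h2
  have h3 : (0 : ℝ) < W u := by exact_mod_cast hW u
  have h4 : (W u : ℝ) * ∑ x ∈ Sp W, g x ≤ W u * (q * ∑ x ∈ Sp W, f x) := by
    calc _ ≤ _ := h2
      _ = _ := by ring
  exact le_of_mul_le_mul_left h4 h3

end Pool.Agent.V7H89.WR
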