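import Pool.Agent.V7H89.WR.Scale

/-!
# Iteration over the classes
-/

set_option autoImplicit false

namespace Pool.Agent.V7H89.WR

open Finset

open scoped Classical

lemma DD_mono {k s K c L lo lo' T : ℕ} {m m' : ℝ} {x : Fin K → ℕ} (h1 : lo ≤ lo') (h2 : m' ≤ m)
    (h : DD k s K c L lo T m x) : DD k s K c L lo' T m' x :=
  fun a ha haT => h2.trans (h a (h1.trans ha) haT)

lemma pow_card_le {q : ℝ} (h0 : 0 ≤ q) (h1 : q ≤ 1) {B n : ℕ} (h : B ≤ n) : q ^ n ≤ q ^ B :=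
  pow_le_pow_of_le_one h0 h1 h

theorem iter {k s K b L lo T r n B : ℕ} {W : Fin K → ℕ} {Wm ρ : ℝ} (hW : ∀ i, 0 < W i)
    (hcW : ∀ u : Fin K, b ≤ (u : ℕ) → 2 * L ≤ W u)
    (hWm : ∀ u : Fin K, (u : ℕ) < 2 * b → (W u : ℝ) ≤ Wm) (hWm0 : 0 < Wm) (hL : 0 < L)
    (hLW : (L : ℝ) ≤ 8 * Wm) (hρ : ρ = n * (L / (4 * Wm))) (hρ1 : 1 ≤ ρ)
    (hbase : ∀ x ∈ Sp W, DD k s K r L lo T (min ((L : ℝ) / 2) 1) x)
    (hcard : ∀ c < s, B ≤ (UU K b s c).card) : ∀ j, r + j ≤ s →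
    (((Sp W).filter fun x => ¬ DD k s K (r + j) L (lo + j * ((2 * b) ^ k + L)) T
      (min ((L : ℝ) / 2) (ρ ^ j)) x).card : ℝ) ≤
      j * ((T + 1) * (2 ^ n * (1 - L / (8 * Wm)) ^ B * (Sp W).card)) := by
  have hq0 : 0 ≤ 1 - (L : ℝ) / (8 * Wm) := by
    rw [sub_nonneg, div_le_one (by positivity)]
    exact hLW
  have hL0 : (0 : ℝ) < L := by exact_mod_cast hL
  have hq1 : 1 - (L : ℝ) / (8 * Wm) ≤ 1 := by
    have : 0 ≤ (L : ℝ) / (8 * Wm) := by positivity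
    linarith
  intro j
  induction j with
  | zero =>
    intro _
    have : ((Sp W).filter fun x => ¬ DD k s K (r + 0) L (lo + 0 * ((2 * b) ^ k + L)) T
      (min ((L : ℝ) / 2) (ρ ^ 0)) x) = ∅ := by
      rw [filter_eq_empty_iff]
      intro x hx hcon
      apply hcon
      simpa using hbase x hx
    rw [this]
    simp
  | succ j ih =>
    intro hj
    have h1 := ih (by omega)
    set m : ℝ := min ((L : ℝ) / 2) (ρ ^ j) with hm
    have hρ0 : 0 < ρ := by linarith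
    have hm0 : 0 < m := lt_min (by positivity) (by positivity)
    have h2 := DD_step (k := k) (s := s) (K := K) (b := b) (L := L) (lo := lo + j * ((2 * b) ^ k + L))
      (T := T) (c := r + j) n (W := W) (m := m) (Wm := Wm) hW hcW hWm hWm0 hL hLW hm0
    have h3 : n * (L * m / (4 * Wm)) = ρ * m := by rw [hρ]; ring
    have h4 : min ((L : ℝ) / 2) (ρ ^ (j + 1)) ≤ min ((L : ℝ) / 2) (ρ * m) := by
      apply le_min (min_le_left _ _)
      rw [hm, mul_min_of_nonneg _ _ hρ0.le]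
      apply le_min
      · refine (min_le_left _ _).trans ?_
        exact le_mul_of_one_le_left (by positivity) hρ1
      · rw [pow_succ, mul_comm ρ]
        exact min_le_right _ _
    rw [h3] at h2
    have h5 : lo + j * ((2 * b) ^ k + L) + (2 * b) ^ k + L = lo + (j + 1) * ((2 * b) ^ k + L) := by ring
    rw [h5] at h2
    have hcard' : (1 - (L : ℝ) / (8 * Wm)) ^ (UU K b s (r + j)).card ≤ (1 - (L : ℝ) / (8 * Wm)) ^ B :=
      pow_card_le hq0 hq1 (hcard (r + j) (by omega))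
    have h6 : ((T : ℝ) + 1) * (2 ^ n * (1 - L / (8 * Wm)) ^ (UU K b s (r + j)).card * (Sp W).card) ≤
        (T + 1) * (2 ^ n * (1 - L / (8 * Wm)) ^ B * (Sp W).card) := by
      gcongr
    have hsub : ((Sp W).filter fun x => ¬ DD k s K (r + (j + 1)) L (lo + (j + 1) * ((2 * b) ^ k + L)) T
        (min ((L : ℝ) / 2) (ρ ^ (j + 1))) x) ⊆
        ((Sp W).filter fun x => ¬ DD k s K (r + j) L (lo + j * ((2 * b) ^ k + L)) T m x) ∪
        ((Sp W).filter fun x => DD k s K (r + j) L (lo + j * ((2 * b) ^ k + L)) T m x ∧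
          ¬ DD k s K (r + j + 1) L (lo + (j + 1) * ((2 * b) ^ k + L)) T (min ((L : ℝ) / 2) (ρ * m)) x) := by
      intro x hx
      obtain ⟨hx1, hx2⟩ := mem_filter.1 hx
      rw [mem_union, mem_filter, mem_filter]
      by_cases h7 : DD k s K (r + j) L (lo + j * ((2 * b) ^ k + L)) T m x
      · right
        exact ⟨hx1, h7, fun h8 => hx2 (DD_mono le_rfl h4 h8)⟩
      · left
        exact ⟨hx1, h7⟩
    calc _ ≤ ((((Sp W).filter fun x => ¬ DD k s K (r + j) L (lo + j * ((2 * b) ^ k + L)) T m x) ∪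
        ((Sp W).filter fun x => DD k s K (r + j) L (lo + j * ((2 * b) ^ k + L)) T m x ∧
          ¬ DD k s K (r + j + 1) L (lo + (j + 1) * ((2 * b) ^ k + L)) T
            (min ((L : ℝ) / 2) (ρ * m)) x)).card : ℝ) := by exact_mod_cast card_le_card hsub
      _ ≤ (((Sp W).filter fun x => ¬ DD k s K (r + j) L (lo + j * ((2 * b) ^ k + L)) T m x).card : ℝ) +
        (((Sp W).filter fun x => DD k s K (r + j) L (lo + j * ((2 * b) ^ k + L)) T m x ∧
          ¬ DD k s K (r + j + 1) L (lo + (j + 1) * ((2 * b) ^ k + L)) T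
            (min ((L : ℝ) / 2) (ρ * m)) x).card : ℝ) := by exact_mod_cast card_union_le _ _
      _ ≤ j * ((T + 1) * (2 ^ n * (1 - L / (8 * Wm)) ^ B * (Sp W).card)) +
        (T + 1) * (2 ^ n * (1 - L / (8 * Wm)) ^ B * (Sp W).card) := add_le_add h1 (h2.trans h6)
      _ = _ := by push_cast; ring

theorem final {k s K b L lo T r n B J : ℕ} {W : Fin K → ℕ} {Wm ρ : ℝ} (hW : ∀ i, 0 < W i)
    (hcW : ∀ u : Fin K, b ≤ (u : ℕ) → 2 * L ≤ W u)
    (hWm : ∀ u : Fin K, (u : ℕ) < 2 * b → (W u : ℝ) ≤ Wm) (hWm0 : 0 < Wm) (hL : 0 < L)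
    (hLW : (L : ℝ) ≤ Wm) (hρ : ρ = n * (L / (4 * Wm))) (hρ1 : 1 ≤ ρ)
    (hbase : ∀ x ∈ Sp W, DD k s K r L lo T (min ((L : ℝ) / 2) 1) x)
    (hcard : ∀ c < s, B ≤ (UU K b s c).card) (hs : s = r + J + 1) :
    (((Sp W).filter fun x => ∃ N, lo + (J + 1) * ((2 * b) ^ k + L) ≤ N ∧ N ≤ T ∧
      ¬ Rep k s K (ex K x) s N).card : ℝ) ≤
      (T + 1) * (J * (2 ^ n * (1 - L / (8 * Wm)) ^ B) + (1 - min ((L : ℝ) / 2) (ρ ^ J) / Wm) ^ B) *
        (Sp W).card := by
  have h1 := iter hW hcW hWm hWm0 hL (by linarith) hρ hρ1 hbase hcard J (by omega)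
  set m : ℝ := min ((L : ℝ) / 2) (ρ ^ J) with hm
  have hL0 : (0 : ℝ) < L := by exact_mod_cast hL
  have hm0 : 0 < m := lt_min (by positivity) (by positivity)
  have hmW : m ≤ Wm := (min_le_left _ _).trans (by linarith)
  have h2 := hit_step (k := k) (s := s) (K := K) (b := b) (L := L) (lo := lo + J * ((2 * b) ^ k + L))
      (T := T) (c := r + J) (W := W) (m := m) (Wm := Wm) hW hcW hWm hWm0 hL hm0.le hmW
  have h5 : lo + J * ((2 * b) ^ k + L) + (2 * b) ^ k + L = lo + (J + 1) * ((2 * b) ^ k + L) := by ring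
  rw [h5] at h2
  have hq0 : 0 ≤ 1 - m / Wm := by
    rw [sub_nonneg, div_le_one (by positivity)]
    exact hmW
  have hq1 : 1 - m / Wm ≤ 1 := by
    have : 0 ≤ m / Wm := by positivity
    linarith
  have hcard' : (1 - m / Wm) ^ (UU K b s (r + J)).card ≤ (1 - m / Wm) ^ B :=
    pow_card_le hq0 hq1 (hcard (r + J) (by omega))
  have h6 : ((T : ℝ) + 1) * ((1 - m / Wm) ^ (UU K b s (r + J)).card * (Sp W).card) ≤
      (T + 1) * ((1 - m / Wm) ^ B * (Sp W).card) := by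
    gcongr
  have hsub : ((Sp W).filter fun x => ∃ N, lo + (J + 1) * ((2 * b) ^ k + L) ≤ N ∧ N ≤ T ∧
      ¬ Rep k s K (ex K x) s N) ⊆
      ((Sp W).filter fun x => ¬ DD k s K (r + J) L (lo + J * ((2 * b) ^ k + L)) T m x) ∪
      ((Sp W).filter fun x => DD k s K (r + J) L (lo + J * ((2 * b) ^ k + L)) T m x ∧
        ∃ N, lo + (J + 1) * ((2 * b) ^ k + L) ≤ N ∧ N ≤ T ∧ ¬ Rep k s K (ex K x) (r + J + 1) N) := by
    intro x hx
    obtain ⟨hx1, N, hx2, hx3, hx4⟩ := mem_filter.1 hx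
    rw [mem_union, mem_filter, mem_filter]
    by_cases h7 : DD k s K (r + J) L (lo + J * ((2 * b) ^ k + L)) T m x
    · right
      refine ⟨hx1, h7, N, hx2, hx3, ?_⟩
      rw [← hs]
      exact hx4
    · left
      exact ⟨hx1, h7⟩
  calc _ ≤ ((((Sp W).filter fun x => ¬ DD k s K (r + J) L (lo + J * ((2 * b) ^ k + L)) T m x) ∪
      ((Sp W).filter fun x => DD k s K (r + J) L (lo + J * ((2 * b) ^ k + L)) T m x ∧
        ∃ N, lo + (J + 1) * ((2 * b) ^ k + L) ≤ N ∧ N ≤ T ∧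
          ¬ Rep k s K (ex K x) (r + J + 1) N)).card : ℝ) := by exact_mod_cast card_le_card hsub
    _ ≤ (((Sp W).filter fun x => ¬ DD k s K (r + J) L (lo + J * ((2 * b) ^ k + L)) T m x).card : ℝ) +
      (((Sp W).filter fun x => DD k s K (r + J) L (lo + J * ((2 * b) ^ k + L)) T m x ∧
        ∃ N, lo + (J + 1) * ((2 * b) ^ k + L) ≤ N ∧ N ≤ T ∧
          ¬ Rep k s K (ex K x) (r + J + 1) N).card : ℝ) := by exact_mod_cast card_union_le _ _
    _ ≤ J * ((T + 1) * (2 ^ n * (1 - L / (8 * Wm)) ^ B * (Sp W).card)) +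
      (T + 1) * ((1 - m / Wm) ^ B * (Sp W).card) := add_le_add h1 (h2.trans h6)
    _ = _ := by ring

end Pool.Agent.V7H89.WR
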