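import Pool.Agent.V7H89.WR.Iter

/-!
# The failure probability of one scale
-/

set_option autoImplicit false

namespace Pool.Agent.V7H89.WR

open Finset Filter

open scoped Classical

lemma pow_exp {q : ℝ} (hq : q ≤ 1) (B : ℕ) : (1 - q) ^ B ≤ Real.exp (-(B * q)) := by
  calc (1 - q) ^ B ≤ (Real.exp (-q)) ^ B :=
        pow_le_pow_left₀ (by linarith) (Real.one_sub_le_exp_neg q) B
    _ = _ := by rw [← Real.exp_nat_mul]; congr 1; ring

lemma two_pow_exp (n : ℕ) : (2 : ℝ) ^ n ≤ Real.exp n := by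
  calc (2 : ℝ) ^ n ≤ (Real.exp 1) ^ n := by
        apply pow_le_pow_left₀ (by norm_num)
        have := Real.add_one_le_exp (1 : ℝ)
        linarith
    _ = _ := by rw [← Real.exp_nat_mul, mul_one]

theorem scale_bound {k : ℕ} (hk : 2 ≤ k) {θ : ℝ} (h0 : 0 < θ) (h1 : θ < 1) {r : ℕ}
    (hr : (max θ (1 - 1 / (k : ℝ))) ^ r < θ) (s : ℕ) (hs : s = r + ⌊θ * k⌋₊ + 1) :
    ∃ c κ : ℝ, 0 < c ∧ 0 < κ ∧ ∃ B0 : ℕ, ∀ B : ℕ, B0 ≤ B → ∀ M : ℕ, M = 8 * s ^ 2 * B →
      (((Sp fun i : Fin (2 * M) => wd (θ * k) i + 1).filter fun x => ∃ N, M ^ k ≤ N ∧ N ≤ 2 * M ^ k ∧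
        ¬ Rep k s (2 * M) (ex (2 * M) x) s N).card : ℝ) ≤
      (2 * (M : ℝ) ^ k + 1) * (⌊θ * k⌋₊ + 1) * Real.exp (-(c * (B : ℝ) ^ κ)) *
        (Sp fun i : Fin (2 * M) => wd (θ * k) i + 1).card := by
  have hk0 : (0 : ℝ) < k := by exact_mod_cast (by omega : 0 < k)
  set β : ℝ := θ * k with hβ
  have hβ0 : 0 < β := by positivity
  have hβk : β ≤ k := by rw [hβ]; nlinarith
  set J := ⌊β⌋₊ with hJ
  have hJβ : (J : ℝ) ≤ β := Nat.floor_le hβ0.le
  have hβJ : β < J + 1 := Nat.lt_floor_add_one β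
  set η : ℝ := max θ (1 - 1 / (k : ℝ)) with hη
  have hη0 : 0 < η := lt_of_lt_of_le h0 (le_max_left _ _)
  have hη1 : η < 1 := by
    rw [hη]
    apply max_lt h1
    have : (0 : ℝ) < 1 / k := by positivity
    linarith
  have hηk : (k : ℝ) - 1 ≤ η * k := by
    have : 1 - 1 / (k : ℝ) ≤ η := le_max_right _ _
    have h2 : (1 - 1 / (k : ℝ)) * k = k - 1 := by field_simp
    nlinarith
  have hηβ : β ≤ η * k := by
    rw [hβ]
    exact mul_le_mul_of_nonneg_right (le_max_left _ _) hk0.le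
  have hs0 : 0 < s := by omega
  have hsr : (1 : ℝ) ≤ s := by exact_mod_cast hs0
  obtain ⟨A, hA, Q, HG⟩ := greedy (k := k) (s := s) (by omega) hs0 hβ0.le hβk hηk hηβ hη0.le hη1.le r
    (by omega)
  set e : ℝ := η ^ r with he
  have he0 : 0 < e := pow_pos hη0 r
  have he1 : e ≤ 1 := pow_le_one₀ hη0.le hη1.le
  have hβe : 0 < β - k * e := by
    rw [hβ]
    have : k * e < k * θ := mul_lt_mul_of_pos_left hr hk0
    linarith
  set c0 : ℝ := 1 / 2 ^ (k + 3) with hc0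
  have hc0p : 0 < c0 := by positivity
  have hc01 : c0 ≤ 1 := by
    rw [hc0, div_le_one (by positivity)]
    exact one_le_pow₀ (by norm_num)
  set c1 : ℝ := c0 ^ 2 / 128 with hc1
  have hc1p : 0 < c1 := by positivity
  set κ : ℝ := J + 1 - β with hκ
  have hκ0 : 0 < κ := by linarith
  have hκ1 : κ ≤ 1 := by linarith
  set c2 : ℝ := c1 ^ J / (2 ^ (k + 3) * (s : ℝ) ^ β) with hc2
  have hc2p : 0 < c2 := by positivity
  -- the scale is large
  have E : ∀ᶠ B : ℕ in atTop, 4 ≤ (B : ℝ) ^ β ∧ 16 ≤ c0 * B ∧ 1 ≤ c1 * B ∧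
      16 * A * (8 * (s : ℝ) ^ 2) ^ k ≤ (B : ℝ) ^ (β - k * e) ∧ Q ≤ B ∧ 1 ≤ B := by
    have t1 : Tendsto (fun B : ℕ => (B : ℝ) ^ β) atTop atTop :=
      (tendsto_rpow_atTop hβ0).comp tendsto_natCast_atTop_atTop
    have t2 : Tendsto (fun B : ℕ => c0 * (B : ℝ)) atTop atTop :=
      tendsto_natCast_atTop_atTop.const_mul_atTop hc0p
    have t3 : Tendsto (fun B : ℕ => c1 * (B : ℝ)) atTop atTop :=
      tendsto_natCast_atTop_atTop.const_mul_atTop hc1p
    have t4 : Tendsto (fun B : ℕ => (B : ℝ) ^ (β - k * e)) atTop atTop :=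
      (tendsto_rpow_atTop hβe).comp tendsto_natCast_atTop_atTop
    filter_upwards [t1.eventually_ge_atTop 4, t2.eventually_ge_atTop 16, t3.eventually_ge_atTop 1,
      t4.eventually_ge_atTop (16 * A * (8 * (s : ℝ) ^ 2) ^ k), eventually_ge_atTop Q,
      eventually_ge_atTop 1] with B a1 a2 a3 a4 a5 a6
    exact ⟨a1, a2, a3, a4, a5, a6⟩
  obtain ⟨B0, hB0⟩ := eventually_atTop.1 E
  refine ⟨min (c0 / 16) c2, κ, lt_min (by positivity) hc2p, hκ0, B0, ?_⟩
  intro B hB M hM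
  obtain ⟨e1, e2, e3, e4, e5, e6⟩ := hB0 B hB
  have hBr : (1 : ℝ) ≤ B := by exact_mod_cast e6
  set b := s * B with hb
  have hbB : B ≤ b := Nat.le_mul_of_pos_left B hs0
  have hb1 : 1 ≤ b := by omega
  have hbBr : (B : ℝ) ≤ b := by exact_mod_cast hbB
  have hb1r : (1 : ℝ) ≤ b := by exact_mod_cast hb1
  have hbM : 2 * b ≤ M := by
    rw [hM, hb]
    calc 2 * (s * B) ≤ 8 * s * (s * B) := Nat.mul_le_mul_right _ (by omega)
      _ = _ := by ring
  have hBβ : (B : ℝ) ^ β ≤ (b : ℝ) ^ β := Real.rpow_le_rpow (by linarith) hbBr hβ0.le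
  set L := ⌊(b : ℝ) ^ β / 2⌋₊ with hL
  have hLb : (L : ℝ) ≤ (b : ℝ) ^ β / 2 := Nat.floor_le (by positivity)
  have hL2 : 2 ≤ L := by
    rw [hL]
    apply Nat.le_floor
    push_cast
    linarith
  have hL2r : (2 : ℝ) ≤ L := by exact_mod_cast hL2
  have hL4 : (b : ℝ) ^ β ≤ 4 * L := by
    have := Nat.lt_floor_add_one ((b : ℝ) ^ β / 2)
    rw [← hL] at this
    linarith
  have hLbk : L ≤ b ^ k := by
    have h2 : (b : ℝ) ^ β ≤ (b : ℝ) ^ k := by
      rw [← Real.rpow_natCast]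
      exact Real.rpow_le_rpow_of_exponent_le hb1r hβk
    have : (L : ℝ) ≤ (b : ℝ) ^ k := by
      have : (0 : ℝ) ≤ (b : ℝ) ^ β := by positivity
      linarith
    exact_mod_cast this
  have hb2k : b ^ k ≤ (2 * b) ^ k := Nat.pow_le_pow_left (by omega) k
  have h2bM : (2 * b) ^ k ≤ M ^ k := Nat.pow_le_pow_left hbM k
  set Wm : ℝ := 2 ^ (k + 3) * L with hWmd
  have hL0 : (0 : ℝ) < L := by linarith
  have hWm0 : 0 < Wm := by positivity
  have hLWm : (L : ℝ) / Wm = c0 := by rw [hWmd, hc0]; field_simp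
  set n := ⌊c0 * B / 16⌋₊ with hn
  have hn1 : (n : ℝ) ≤ c0 * B / 16 := Nat.floor_le (by positivity)
  have hn2 : c0 * B / 32 ≤ n := by
    have := Nat.lt_floor_add_one (c0 * B / 16)
    rw [← hn] at this
    have h3 : 1 ≤ n := by
      rw [hn]
      apply Nat.le_floor
      push_cast
      linarith
    have h4 : (1 : ℝ) ≤ n := by exact_mod_cast h3
    linarith
  set ρ : ℝ := n * (L / (4 * Wm)) with hρ
  have hρ2 : ρ = n * c0 / 4 := by
    have : (L : ℝ) / (4 * Wm) = (L / Wm) / 4 := by field_simp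
    rw [hρ, this, hLWm]
    ring
  have hρ3 : c1 * B ≤ ρ := by
    rw [hρ2, hc1]
    have : c0 * B / 32 * c0 ≤ n * c0 := mul_le_mul_of_nonneg_right hn2 hc0p.le
    linarith
  have hρ1 : 1 ≤ ρ := by linarith
  set W : Fin (2 * M) → ℕ := fun i => wd β i + 1 with hW
  have hW0 : ∀ i, 0 < W i := fun i => Nat.succ_pos _
  have hcW : ∀ u : Fin (2 * M), b ≤ (u : ℕ) → 2 * L ≤ W u := by
    intro u hu
    have h2 : 2 * L ≤ wd β u := by
      unfold wd
      apply Nat.le_floor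
      push_cast
      have h3 : (b : ℝ) ^ β ≤ ((u : ℕ) : ℝ) ^ β :=
        Real.rpow_le_rpow (by linarith) (by exact_mod_cast hu) hβ0.le
      linarith
    have h4 : W u = wd β u + 1 := rfl
    omega
  have hWm : ∀ u : Fin (2 * M), (u : ℕ) < 2 * b → (W u : ℝ) ≤ Wm := by
    intro u hu
    have h4 : (W u : ℝ) = wd β u + 1 := by rw [hW]; push_cast; rfl
    have h5 : (wd β u : ℝ) ≤ 2 ^ k * (4 * L) := by
      calc (wd β u : ℝ) ≤ ((u : ℕ) : ℝ) ^ β := wd_le β u
        _ ≤ (2 * (b : ℝ)) ^ β := by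
            apply Real.rpow_le_rpow (Nat.cast_nonneg _) _ hβ0.le
            exact_mod_cast hu.le
        _ = (2 : ℝ) ^ β * (b : ℝ) ^ β := Real.mul_rpow (by norm_num) (by linarith)
        _ ≤ (2 : ℝ) ^ (k : ℝ) * (4 * L) := by
            apply mul_le_mul
            · exact Real.rpow_le_rpow_of_exponent_le (by norm_num) hβk
            · exact hL4
            · positivity
            · positivity
        _ = _ := by rw [Real.rpow_natCast]
    rw [h4, hWmd]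
    have h6 : (1 : ℝ) ≤ 2 ^ k := one_le_pow₀ (by norm_num)
    have h7 : (2 : ℝ) ^ (k + 3) * L = 2 ^ k * (4 * L) + 2 ^ k * (4 * L) := by ring
    rw [h7]
    have h8 : (1 : ℝ) ≤ 2 ^ k * (4 * L) := one_le_mul_of_one_le_of_one_le h6 (by linarith)
    linarith
  have hLW : (L : ℝ) ≤ Wm := by
    rw [hWmd]
    exact le_mul_of_one_le_left hL0.le (one_le_pow₀ (by norm_num))
  have hcard : ∀ c < s, B ≤ (UU (2 * M) b s c).card := by
    intro c hc
    rw [hb]
    apply card_UU hc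
    omega
  set T := 2 * M ^ k with hT
  set δ := 2 * (2 * b) ^ k with hδ
  have hM4 : 4 * M ^ k ≤ (2 * M) ^ k := by
    rw [Nat.mul_pow]
    apply Nat.mul_le_mul_right
    calc 4 = 2 ^ 2 := by norm_num
      _ ≤ 2 ^ k := Nat.pow_le_pow_right (by norm_num) hk
  have hbk1 : b ≤ b ^ k := Nat.le_self_pow (by omega) b
  have hsδ : B ≤ s * δ := by
    calc B ≤ b := hbB
      _ ≤ (2 * b) ^ k := hbk1.trans hb2k
      _ ≤ δ := by omega
      _ ≤ s * δ := Nat.le_mul_of_pos_left _ hs0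
  -- the greedy bound
  have hgr : ∀ t : ℕ, 1 + t ≤ 4 * M ^ k → A * (1 + t : ℝ) ^ e ≤ L := by
    intro t ht
    have h2 : (1 + t : ℝ) ≤ 4 * (8 * (s : ℝ) ^ 2) ^ k * (B : ℝ) ^ k := by
      have h3 : (4 * M ^ k : ℕ) = 4 * (8 * s ^ 2) ^ k * B ^ k := by rw [hM, mul_pow]; ring
      rw [h3] at ht
      exact_mod_cast ht
    set D : ℝ := 4 * (8 * (s : ℝ) ^ 2) ^ k with hD
    have hD1 : 1 ≤ D := by
      rw [hD]
      have : (1 : ℝ) ≤ (8 * (s : ℝ) ^ 2) ^ k := by
        apply one_le_pow₀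
        nlinarith
      linarith
    have h4 : (1 + t : ℝ) ^ e ≤ D * (B : ℝ) ^ (k * e) := by
      calc (1 + t : ℝ) ^ e ≤ (D * (B : ℝ) ^ k) ^ e :=
            Real.rpow_le_rpow (by positivity) h2 he0.le
        _ = D ^ e * (B : ℝ) ^ (k * e) := by
            rw [Real.mul_rpow (by positivity) (by positivity), ← Real.rpow_natCast_mul (by positivity)]
        _ ≤ D ^ (1 : ℝ) * (B : ℝ) ^ (k * e) := by
            apply mul_le_mul_of_nonneg_right _ (by positivity)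
            exact Real.rpow_le_rpow_of_exponent_le hD1 he1
        _ = _ := by rw [Real.rpow_one]
    have h5 : (B : ℝ) ^ β = (B : ℝ) ^ (β - k * e) * (B : ℝ) ^ (k * e) := by
      rw [← Real.rpow_add (by linarith)]
      congr 1
      ring
    have h6 : 4 * A * D * (B : ℝ) ^ (k * e) ≤ (B : ℝ) ^ β := by
      rw [h5]
      apply mul_le_mul_of_nonneg_right _ (by positivity)
      calc 4 * A * D = 16 * A * (8 * (s : ℝ) ^ 2) ^ k := by rw [hD]; ring
        _ ≤ _ := e4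
    have h7 : A * (1 + t : ℝ) ^ e ≤ A * (D * (B : ℝ) ^ (k * e)) :=
      mul_le_mul_of_nonneg_left h4 (by linarith)
    linarith
  have hbase : ∀ x ∈ Sp W, DD k s (2 * M) r L (s * δ) T (min ((L : ℝ) / 2) 1) x := by
    intro x hx a ha haT
    have hLM : L ≤ M ^ k := hLbk.trans (hb2k.trans h2bM)
    have ht4 : 1 + (a + L - 1) ≤ 4 * M ^ k := by omega
    obtain ⟨σ, hσ1, hσ2, hσ3⟩ := HG (2 * M) (ex (2 * M) x) (a + L - 1) (by
      intro u hu
      have h2 := mem_sp.1 hx ⟨u, hu⟩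
      have h3 : ex (2 * M) x u = x ⟨u, hu⟩ := ex_apply x ⟨u, hu⟩
      rw [h3]
      exact Nat.lt_succ_iff.1 h2) (by omega) (by omega)
    have h4 := hσ3.trans (hgr _ ht4)
    have h5 : ((a + L - 1 : ℕ) : ℝ) = a + L - 1 := by
      rw [Nat.cast_sub (by omega)]
      push_cast
      ring
    rw [h5] at h4
    have h6 : (a : ℝ) ≤ σ := by linarith
    have h7 : a ≤ σ := by exact_mod_cast h6
    have h8 : σ ∈ Wn k s (2 * M) r x a L := by
      unfold Wn
      rw [mem_filter, mem_Ico]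
      exact ⟨⟨h7, by omega⟩, hσ1⟩
    have h9 : 1 ≤ (Wn k s (2 * M) r x a L).card := card_pos.2 ⟨σ, h8⟩
    have h10 : (1 : ℝ) ≤ ((Wn k s (2 * M) r x a L).card : ℝ) := by exact_mod_cast h9
    exact (min_le_right _ _).trans h10
  have hfin := final (B := B) (n := n) hW0 hcW hWm hWm0 (by omega) hLW hρ hρ1 hbase hcard hs
  have hlo : s * δ + (J + 1) * ((2 * b) ^ k + L) ≤ M ^ k := by
    calc s * δ + (J + 1) * ((2 * b) ^ k + L) ≤ s * δ + s * δ := by
          apply Nat.add_le_add_left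
          apply Nat.mul_le_mul (by omega)
          omega
      _ = 4 * s * (2 * (s * B)) ^ k := by rw [hδ, hb]; ring
      _ ≤ (4 * s) ^ k * (2 * (s * B)) ^ k := by
          apply Nat.mul_le_mul_right
          exact Nat.le_self_pow (by omega) _
      _ = M ^ k := by rw [hM, ← mul_pow]; congr 1; ring
  have hsub : ((Sp W).filter fun x => ∃ N, M ^ k ≤ N ∧ N ≤ 2 * M ^ k ∧
        ¬ Rep k s (2 * M) (ex (2 * M) x) s N) ⊆
      ((Sp W).filter fun x => ∃ N, s * δ + (J + 1) * ((2 * b) ^ k + L) ≤ N ∧ N ≤ T ∧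
      ¬ Rep k s (2 * M) (ex (2 * M) x) s N) := by
    intro x hx
    obtain ⟨hx1, N, hN1, hN2, hN3⟩ := mem_filter.1 hx
    rw [mem_filter]
    exact ⟨hx1, N, hlo.trans hN1, hN2, hN3⟩
  have hcc : ((((Sp W).filter fun x => ∃ N, M ^ k ≤ N ∧ N ≤ 2 * M ^ k ∧
        ¬ Rep k s (2 * M) (ex (2 * M) x) s N).card : ℕ) : ℝ) ≤
      ((((Sp W).filter fun x => ∃ N, s * δ + (J + 1) * ((2 * b) ^ k + L) ≤ N ∧ N ≤ T ∧
      ¬ Rep k s (2 * M) (ex (2 * M) x) s N).card : ℕ) : ℝ) := by exact_mod_cast card_le_card hsub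
  refine hcc.trans (hfin.trans ?_)
  apply mul_le_mul_of_nonneg_right _ (Nat.cast_nonneg _)
  set c : ℝ := min (c0 / 16) c2 with hc
  have hcp : 0 < c := lt_min (by positivity) hc2p
  have hBκ : (B : ℝ) ^ κ ≤ B := by
    calc (B : ℝ) ^ κ ≤ (B : ℝ) ^ (1 : ℝ) := Real.rpow_le_rpow_of_exponent_le hBr hκ1
      _ = B := Real.rpow_one _
  have hBκ0 : 0 < (B : ℝ) ^ κ := by positivity
  have hcB : c * (B : ℝ) ^ κ ≤ c0 / 16 * B :=
    mul_le_mul (min_le_left _ _) hBκ hBκ0.le (by positivity)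
  have g1 : 2 ^ n * (1 - L / (8 * Wm)) ^ B ≤ Real.exp (-(c * (B : ℝ) ^ κ)) := by
    have h2 : (L : ℝ) / (8 * Wm) = c0 / 8 := by
      have : (L : ℝ) / (8 * Wm) = (L / Wm) / 8 := by field_simp
      rw [this, hLWm]
    rw [h2]
    calc (2 : ℝ) ^ n * (1 - c0 / 8) ^ B ≤ Real.exp n * Real.exp (-(B * (c0 / 8))) := by
          apply mul_le_mul (two_pow_exp n) (pow_exp (by linarith) B)
          · apply pow_nonneg; linarith
          · positivity
      _ = Real.exp (n + -(B * (c0 / 8))) := (Real.exp_add _ _).symm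
      _ ≤ _ := by
          apply Real.exp_le_exp.2
          linarith
  set m : ℝ := min ((L : ℝ) / 2) (ρ ^ J) with hm
  have hmW : m ≤ Wm := (min_le_left _ _).trans (by linarith)
  have g2 : (1 - m / Wm) ^ B ≤ Real.exp (-(c * (B : ℝ) ^ κ)) := by
    refine (pow_exp ((div_le_one hWm0).2 hmW) B).trans ?_
    apply Real.exp_le_exp.2
    apply neg_le_neg
    have h2 : (B : ℝ) * (m / Wm) = min (B * ((L / 2) / Wm)) (B * (ρ ^ J / Wm)) := by
      rw [hm, ← min_div_div_right hWm0.le, mul_min_of_nonneg _ _ (by linarith)]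
    rw [h2]
    apply le_min
    · have h3 : (L : ℝ) / 2 / Wm = c0 / 2 := by
        have : (L : ℝ) / 2 / Wm = (L / Wm) / 2 := by field_simp
        rw [this, hLWm]
      rw [h3]
      linarith
    · have h3 : c * (B : ℝ) ^ κ ≤ c2 * (B : ℝ) ^ κ :=
        mul_le_mul_of_nonneg_right (min_le_right _ _) hBκ0.le
      refine h3.trans ?_
      have h4 : (c1 * B) ^ J ≤ ρ ^ J := pow_le_pow_left₀ (by positivity) hρ3 J
      have h5 : Wm ≤ 2 ^ (k + 3) * ((s : ℝ) ^ β * (B : ℝ) ^ β) := by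
        rw [hWmd]
        apply mul_le_mul_of_nonneg_left _ (by positivity)
        have h6 : (b : ℝ) ^ β = (s : ℝ) ^ β * (B : ℝ) ^ β := by
          rw [hb]
          push_cast
          exact Real.mul_rpow (by linarith) (by linarith)
        rw [← h6]
        have : (0 : ℝ) ≤ (b : ℝ) ^ β := by positivity
        linarith
      have h7 : c2 * (B : ℝ) ^ κ = B * ((c1 * B) ^ J / (2 ^ (k + 3) * ((s : ℝ) ^ β * (B : ℝ) ^ β))) := by
        have h8 : (B : ℝ) ^ κ = B * (B : ℝ) ^ J / (B : ℝ) ^ β := by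
          rw [hκ, Real.rpow_sub (by linarith), Real.rpow_add (by linarith), Real.rpow_natCast,
            Real.rpow_one]
          ring
        rw [h8, hc2, mul_pow]
        field_simp
      rw [h7]
      apply mul_le_mul_of_nonneg_left _ (by linarith)
      apply div_le_div₀ (by positivity) h4 hWm0 h5
  have hTr : (T : ℝ) = 2 * (M : ℝ) ^ k := by rw [hT]; push_cast; ring
  rw [hTr, mul_assoc (2 * (M : ℝ) ^ k + 1)]
  apply mul_le_mul_of_nonneg_left _ (by positivity)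
  have : (J : ℝ) * (2 ^ n * (1 - L / (8 * Wm)) ^ B) ≤ J * Real.exp (-(c * (B : ℝ) ^ κ)) :=
    mul_le_mul_of_nonneg_left g1 (Nat.cast_nonneg _)
  calc _ ≤ J * Real.exp (-(c * (B : ℝ) ^ κ)) + Real.exp (-(c * (B : ℝ) ^ κ)) := add_le_add this g2
    _ = _ := by ring

end Pool.Agent.V7H89.WR
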