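import Pool.Agent.V7H89.WR.Param

/-!
# Almost sure statement
-/

set_option autoImplicit false

namespace Pool.Agent.V7H89.WR

open Finset Filter MeasureTheory ProbabilityTheory

open scoped Topology

lemma summable_eps {c κ : ℝ} (hc : 0 < c) (hκ : 0 < κ) (k s : ℕ) (C : ℝ) (hC : 0 ≤ C) :
    Summable fun B : ℕ => (2 * ((8 * s ^ 2 * B : ℕ) : ℝ) ^ k + 1) * C *
      Real.exp (-(c * (B : ℝ) ^ κ)) := by
  have h1 : Tendsto (fun B : ℕ => (B : ℝ) ^ (k + 2) * Real.exp (-(c * (B : ℝ) ^ κ))) atTop (𝓝 0) := by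
    have h2 := tendsto_rpow_mul_exp_neg_mul_atTop_nhds_zero (((k + 2 : ℕ) : ℝ) / κ) c hc
    have h3 : Tendsto (fun B : ℕ => (B : ℝ) ^ κ) atTop atTop :=
      (tendsto_rpow_atTop hκ).comp tendsto_natCast_atTop_atTop
    have h4 := h2.comp h3
    refine h4.congr fun B => ?_
    show ((B : ℝ) ^ κ) ^ (((k + 2 : ℕ) : ℝ) / κ) * Real.exp (-c * (B : ℝ) ^ κ) = _
    rw [← Real.rpow_mul (Nat.cast_nonneg B), mul_div_cancel₀ _ hκ.ne', Real.rpow_natCast, neg_mul]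
  have h5 : ∀ᶠ B : ℕ in atTop, (B : ℝ) ^ (k + 2) * Real.exp (-(c * (B : ℝ) ^ κ)) ≤ 1 :=
    (h1.eventually (gt_mem_nhds one_pos)).mono fun B h => h.le
  set D : ℝ := (2 * (8 * (s : ℝ) ^ 2) ^ k + 1) * C with hD
  have hD0 : 0 ≤ D := by positivity
  refine Summable.of_norm_bounded_eventually_nat (g := fun B : ℕ => D * (1 / (B : ℝ) ^ 2))
    ((Real.summable_one_div_nat_pow.2 (by norm_num)).mul_left D) ?_
  filter_upwards [h5, eventually_ge_atTop 1] with B hB hB1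
  have hBr : (1 : ℝ) ≤ B := by exact_mod_cast hB1
  have hB0 : (0 : ℝ) < B := by linarith
  have h6 : 0 ≤ Real.exp (-(c * (B : ℝ) ^ κ)) := (Real.exp_pos _).le
  rw [Real.norm_of_nonneg (by positivity)]
  have h7 : (2 * ((8 * s ^ 2 * B : ℕ) : ℝ) ^ k + 1) * C ≤ D * (B : ℝ) ^ k := by
    have h8 : (1 : ℝ) ≤ (B : ℝ) ^ k := one_le_pow₀ hBr
    rw [hD]
    push_cast
    rw [mul_pow]
    have h9 : (0 : ℝ) ≤ (8 * (s : ℝ) ^ 2) ^ k := by positivity
    have h10 : 2 * ((8 * (s : ℝ) ^ 2) ^ k * (B : ℝ) ^ k) + 1 ≤ (2 * (8 * (s : ℝ) ^ 2) ^ k + 1) * (B : ℝ) ^ k := by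
      linarith
    calc (2 * ((8 * (s : ℝ) ^ 2) ^ k * (B : ℝ) ^ k) + 1) * C
        ≤ ((2 * (8 * (s : ℝ) ^ 2) ^ k + 1) * (B : ℝ) ^ k) * C := mul_le_mul_of_nonneg_right h10 hC
      _ = _ := by ring
  have h11 : (B : ℝ) ^ k * Real.exp (-(c * (B : ℝ) ^ κ)) ≤ 1 / (B : ℝ) ^ 2 := by
    rw [le_div_iff₀ (by positivity)]
    calc _ = (B : ℝ) ^ (k + 2) * Real.exp (-(c * (B : ℝ) ^ κ)) := by ring
      _ ≤ 1 := hB
  calc (2 * ((8 * s ^ 2 * B : ℕ) : ℝ) ^ k + 1) * C * Real.exp (-(c * (B : ℝ) ^ κ))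
      ≤ D * (B : ℝ) ^ k * Real.exp (-(c * (B : ℝ) ^ κ)) := mul_le_mul_of_nonneg_right h7 h6
    _ = D * ((B : ℝ) ^ k * Real.exp (-(c * (B : ℝ) ^ κ))) := by ring
    _ ≤ _ := mul_le_mul_of_nonneg_left h11 hD0

/-- consecutive scales cover everything -/
lemma cover {k s : ℕ} (hk : 1 ≤ k) (hs : 0 < s) (B1 : ℕ) : ∃ N0, ∀ N ≥ N0, ∃ B ≥ B1,
    (8 * s ^ 2 * B) ^ k ≤ N ∧ N ≤ 2 * (8 * s ^ 2 * B) ^ k := by
  classical
  set B2 := B1 + 2 * k + 1 with hB2
  refine ⟨(8 * s ^ 2 * B2) ^ k, fun N hN => ?_⟩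
  have hex : ∃ B, N < (8 * s ^ 2 * (B + 1)) ^ k := by
    refine ⟨N, ?_⟩
    calc N < N + 1 := Nat.lt_succ_self N
      _ ≤ (N + 1) ^ k := Nat.le_self_pow (by omega) _
      _ ≤ _ := by
        apply Nat.pow_le_pow_left
        exact Nat.le_mul_of_pos_left _ (by positivity)
  set B := Nat.find hex with hB
  have h1 : N < (8 * s ^ 2 * (B + 1)) ^ k := Nat.find_spec hex
  have h2 : B2 ≤ B := by
    by_contra hcon
    push Not at hcon
    have : (8 * s ^ 2 * (B + 1)) ^ k ≤ (8 * s ^ 2 * B2) ^ k := by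
      apply Nat.pow_le_pow_left
      exact Nat.mul_le_mul_left _ (by omega)
    omega
  have h3 : (8 * s ^ 2 * B) ^ k ≤ N := by
    have h4 : ¬ N < (8 * s ^ 2 * (B - 1 + 1)) ^ k := Nat.find_min hex (by omega)
    rw [Nat.sub_add_cancel (by omega)] at h4
    omega
  refine ⟨B, by omega, h3, ?_⟩
  have h5 : (B + 1) ^ k ≤ 2 * B ^ k := by
    obtain ⟨k', rfl⟩ : ∃ k', k = k' + 1 := ⟨k - 1, by omega⟩
    have h6 := pow_add_le B 1 k'
    have h7 : 2 * (k' + 1) * (B + 1) ^ k' ≤ (B + 1) ^ (k' + 1) := by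
      rw [pow_succ, mul_comm ((B + 1) ^ k')]
      exact Nat.mul_le_mul_right _ (by omega)
    rw [one_mul] at h6
    have h8 : 2 * (k' + 1) * (B + 1) ^ k' = 2 * ((k' + 1) * (B + 1) ^ k') := by ring
    omega
  calc N ≤ (8 * s ^ 2 * (B + 1)) ^ k := h1.le
    _ = (8 * s ^ 2) ^ k * (B + 1) ^ k := by rw [mul_pow]
    _ ≤ (8 * s ^ 2) ^ k * (2 * B ^ k) := Nat.mul_le_mul_left _ h5
    _ = _ := by rw [mul_pow]; ring

section

variable {Ω : Type*} [MeasurableSpace Ω] {μ : Measure Ω} [IsProbabilityMeasure μ] {ξ : ℕ → Ω → ℕ}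
  {w : ℕ → ℕ}

/-- uniform variables are bounded -/
lemma ae_le (hm : ∀ n, Measurable (ξ n))
    (hu : ∀ n v, v ≤ w n → μ {ω | ξ n ω = v} = 1 / ((w n : ENNReal) + 1)) :
    ∀ᵐ ω ∂μ, ∀ n, ξ n ω ≤ w n := by
  rw [ae_all_iff]
  intro n
  have h1 : μ (⋃ v ∈ range (w n + 1), {ω | ξ n ω = v}) = 1 := by
    rw [measure_biUnion_finset]
    · rw [sum_congr rfl fun v hv => hu n v (by rw [mem_range] at hv; omega), sum_const, card_range,
        nsmul_eq_mul]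
      push_cast
      rw [one_div]
      exact ENNReal.mul_inv_cancel (by positivity) (by finiteness)
    · intro v _ v' _ hvv'
      rw [Function.onFun, Set.disjoint_left]
      intro ω h h'
      exact hvv' (h.symm.trans h')
    · intro v _
      exact hm n (measurableSet_singleton v)
  have h2 : {ω | ξ n ω ≤ w n} = ⋃ v ∈ range (w n + 1), {ω | ξ n ω = v} := by
    ext ω
    simp
  have h3 : MeasurableSet {ω | ξ n ω ≤ w n} := by
    have : {ω | ξ n ω ≤ w n} = ξ n ⁻¹' {v | v ≤ w n} := rfl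
    rw [this]
    exact hm n (Set.to_countable _).measurableSet
  have h4 : μ {ω | ξ n ω ≤ w n} = 1 := by rw [h2]; exact h1
  exact (prob_compl_eq_zero_iff h3).2 h4

/-- the probability of a finite set of configurations -/
lemma prob_le (hind : iIndepFun ξ μ)
    (hu : ∀ n v, v ≤ w n → μ {ω | ξ n ω = v} = 1 / ((w n : ENNReal) + 1)) {K : ℕ}
    (Bad : Finset (Fin K → ℕ)) (hB : ∀ x ∈ Bad, ∀ i, x i ≤ w i) :
    μ {ω | ∃ x ∈ Bad, ∀ i : Fin K, ξ i ω = x i} ≤ Bad.card * ∏ i : Fin K, (1 / ((w i : ENNReal) + 1)) := by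
  have h1 : {ω | ∃ x ∈ Bad, ∀ i : Fin K, ξ i ω = x i} =
      ⋃ x ∈ Bad, ⋂ i ∈ range K, ξ i ⁻¹' {ex K x i} := by
    ext ω
    simp only [Set.mem_ofPred_eq, Set.mem_iUnion, Set.mem_iInter, Set.mem_preimage,
      Set.mem_singleton_iff, mem_range, exists_prop]
    constructor
    · rintro ⟨x, hx, h⟩
      refine ⟨x, hx, fun i hi => ?_⟩
      rw [h ⟨i, hi⟩]
      exact (ex_apply x ⟨i, hi⟩).symm
    · rintro ⟨x, hx, h⟩
      refine ⟨x, hx, fun i => ?_⟩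
      rw [h i i.2, ex_apply]
  rw [h1]
  calc μ (⋃ x ∈ Bad, ⋂ i ∈ range K, ξ i ⁻¹' {ex K x i})
      ≤ ∑ x ∈ Bad, μ (⋂ i ∈ range K, ξ i ⁻¹' {ex K x i}) := measure_biUnion_finset_le _ _
    _ = ∑ _x ∈ Bad, ∏ i : Fin K, (1 / ((w i : ENNReal) + 1)) := by
        apply sum_congr rfl
        intro x hx
        rw [hind.measure_inter_preimage_eq_mul (range K) (sets := fun i => {ex K x i})
          (fun i _ => measurableSet_singleton _), prod_range]
        apply prod_congr rfl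
        intro i _
        have h2 : ξ i ⁻¹' {ex K x i} = {ω | ξ i ω = x i} := by
          rw [ex_apply]
          rfl
        rw [h2]
        exact hu i (x i) (hB x hx i)
    _ = _ := by rw [sum_const, nsmul_eq_mul]

lemma prod_cancel {K : ℕ} (w : ℕ → ℕ) :
    (((Sp fun i : Fin K => w i + 1).card : ℕ) : ENNReal) * ∏ i : Fin K, (1 / ((w i : ENNReal) + 1)) = 1 := by
  rw [Fintype.card_piFinset]
  push_cast
  rw [← prod_mul_distrib]
  apply prod_eq_one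
  intro i _
  rw [card_range, one_div]
  push_cast
  exact ENNReal.mul_inv_cancel (by positivity) (by finiteness)

end

/-- **Random perturbations.** -/
theorem almost_sure {k : ℕ} (hk : 2 ≤ k) {θ : ℝ} (h0 : 0 < θ) (h1 : θ < 1) {r : ℕ}
    (hr : (max θ (1 - 1 / (k : ℝ))) ^ r < θ) {Ω : Type*} [MeasurableSpace Ω] {μ : Measure Ω}
    [IsProbabilityMeasure μ] {ξ : ℕ → Ω → ℕ} (hm : ∀ n, Measurable (ξ n)) (hind : iIndepFun ξ μ)
    (hu : ∀ n v : ℕ, v ≤ ⌊(n : ℝ) ^ (θ * k)⌋₊ →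
      μ {ω | ξ n ω = v} = 1 / ((⌊(n : ℝ) ^ (θ * k)⌋₊ : ENNReal) + 1)) :
    ∀ᵐ ω ∂μ, ∃ N0 : ℕ, ∀ N ≥ N0, ∃ n : Fin (r + ⌊θ * k⌋₊ + 1) → ℕ, Function.Injective n ∧
      ∑ i, ((n i) ^ k + ξ (n i) ω) = N := by
  classical
  set s := r + ⌊θ * k⌋₊ + 1 with hs
  have hs0 : 0 < s := by omega
  obtain ⟨c, κ, hc, hκ, B0, hB0⟩ := scale_bound hk h0 h1 hr s hs
  set w : ℕ → ℕ := fun n => ⌊(n : ℝ) ^ (θ * k)⌋₊ with hw
  set M : ℕ → ℕ := fun B => 8 * s ^ 2 * B with hM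
  set ε : ℕ → ℝ := fun B => (2 * ((8 * s ^ 2 * B : ℕ) : ℝ) ^ k + 1) * (⌊θ * k⌋₊ + 1) *
      Real.exp (-(c * (B : ℝ) ^ κ)) with hε
  have hε0 : ∀ B, 0 ≤ ε B := fun B => by rw [hε]; positivity
  have hsum : Summable ε := summable_eps hc hκ k s (⌊θ * k⌋₊ + 1) (by positivity)
  set E : ℕ → Set Ω := fun B => {ω | (∀ n, ξ n ω ≤ w n) ∧ ∃ N, M B ^ k ≤ N ∧ N ≤ 2 * M B ^ k ∧
    ¬ Rep k s (2 * M B) (fun n => ξ n ω) s N} with hE
  have hEμ : ∀ B, B0 ≤ B → μ (E B) ≤ ENNReal.ofReal (ε B) := by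
    intro B hB
    set Bad := ((Sp fun i : Fin (2 * M B) => wd (θ * k) i + 1).filter fun x =>
      ∃ N, M B ^ k ≤ N ∧ N ≤ 2 * M B ^ k ∧ ¬ Rep k s (2 * M B) (ex (2 * M B) x) s N) with hBad
    have hcard := hB0 B hB (M B) rfl
    have h2 : E B ⊆ {ω | ∃ x ∈ Bad, ∀ i : Fin (2 * M B), ξ i ω = x i} := by
      rintro ω ⟨hω, N, hN1, hN2, hN3⟩
      refine ⟨fun i => ξ i ω, ?_, fun i => rfl⟩
      rw [hBad, mem_filter]
      refine ⟨?_, N, hN1, hN2, ?_⟩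
      · rw [mem_sp]
        intro i
        exact Nat.lt_succ_of_le (hω i)
      · intro hrep
        apply hN3
        refine (rep_congr s N ?_).1 hrep
        intro u hu _
        exact ex_apply (fun i : Fin (2 * M B) => ξ i ω) ⟨u, hu⟩
    have h3 : μ (E B) ≤ Bad.card * ∏ i : Fin (2 * M B), (1 / ((w i : ENNReal) + 1)) := by
      refine (measure_mono h2).trans (prob_le hind hu Bad ?_)
      intro x hx i
      have := mem_sp.1 (mem_filter.1 hx).1 i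
      exact Nat.lt_succ_iff.1 this
    have h4 : (Bad.card : ENNReal) ≤ ENNReal.ofReal (ε B) *
        ((Sp fun i : Fin (2 * M B) => w i + 1).card : ℕ) := by
      have h5 : ((Bad.card : ℕ) : ENNReal) = ENNReal.ofReal (Bad.card : ℝ) :=
        (ENNReal.ofReal_natCast _).symm
      have h6 : (((Sp fun i : Fin (2 * M B) => w i + 1).card : ℕ) : ENNReal) =
        ENNReal.ofReal ((Sp fun i : Fin (2 * M B) => w i + 1).card : ℝ) := (ENNReal.ofReal_natCast _).symm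
      rw [h5, h6, ← ENNReal.ofReal_mul (hε0 B)]
      apply ENNReal.ofReal_le_ofReal
      exact hcard
    calc μ (E B) ≤ Bad.card * ∏ i : Fin (2 * M B), (1 / ((w i : ENNReal) + 1)) := h3
      _ ≤ (ENNReal.ofReal (ε B) * ((Sp fun i : Fin (2 * M B) => w i + 1).card : ℕ)) *
          ∏ i : Fin (2 * M B), (1 / ((w i : ENNReal) + 1)) := by gcongr
      _ = ENNReal.ofReal (ε B) := by rw [mul_assoc, prod_cancel, mul_one]
  have hfin : (∑' B, μ (E (B + B0))) ≠ ⊤ := by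
    have h2 : (∑' B, μ (E (B + B0))) ≤ ∑' B, ENNReal.ofReal (ε (B + B0)) :=
      ENNReal.tsum_le_tsum fun B => hEμ (B + B0) (by omega)
    refine ne_top_of_le_ne_top ?_ h2
    have h3 : Summable fun B => ε (B + B0) := (summable_nat_add_iff B0).2 hsum
    exact h3.tsum_ofReal_ne_top
  filter_upwards [ae_eventually_notMem hfin, ae_le hm hu] with ω h2 h3
  obtain ⟨B1, hB1⟩ := eventually_atTop.1 h2
  obtain ⟨N0, hN0⟩ := cover (k := k) (s := s) (by omega) hs0 (B1 + B0)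
  refine ⟨N0, fun N hN => ?_⟩
  obtain ⟨B, hB, h4, h5⟩ := hN0 N hN
  have h6 := hB1 (B - B0) (by omega)
  rw [Nat.sub_add_cancel (by omega)] at h6
  have h7 : Rep k s (2 * M B) (fun n => ξ n ω) s N := by
    by_contra hcon
    exact h6 ⟨h3, N, h4, h5, hcon⟩
  obtain ⟨n, hn1, hn2⟩ := rep_terms s N h7
  exact ⟨n, inj_of_mod hn1, hn2⟩

/-- the product space exists -/
theorem exists_space (w : ℕ → ℕ) : ∃ μ : Measure (ℕ → ℕ), IsProbabilityMeasure μ ∧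
    iIndepFun (fun n (ω : ℕ → ℕ) => ω n) μ ∧
    ∀ n v, v ≤ w n → μ {ω | ω n = v} = 1 / ((w n : ENNReal) + 1) := by
  classical
  have hP : ∀ n, IsProbabilityMeasure (uniformOn ((range (w n + 1) : Finset ℕ) : Set ℕ)) := fun n =>
    isProbabilityMeasure_uniformOn (finite_toSet _) ⟨0, by simp⟩
  refine ⟨Measure.infinitePi fun n => uniformOn ((range (w n + 1) : Finset ℕ) : Set ℕ), inferInstance,
    iIndepFun_infinitePi (X := fun _ v => v) (fun _ => measurable_id), ?_⟩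
  intro n v hv
  have h1 := (measurePreserving_eval_infinitePi
    (fun n => uniformOn ((range (w n + 1) : Finset ℕ) : Set ℕ)) n).measure_preimage
      (measurableSet_singleton v).nullMeasurableSet
  have h2 : (Function.eval n ⁻¹' {v} : Set (ℕ → ℕ)) = {ω | ω n = v} := rfl
  rw [h2] at h1
  rw [h1]
  have h3 := uniformOn_apply_finset (s := range (w n + 1)) (t := {v})
  rw [coe_singleton] at h3
  rw [h3, inter_singleton_of_mem (by rw [mem_range]; omega), card_singleton, card_range]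
  push_cast
  rfl

end Pool.Agent.V7H89.WR
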