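import Mathlib

/-!
# Sums of one term from each residue class
-/

set_option autoImplicit false

namespace Pool.Agent.V7H89.WR

open Finset

/-- sums of `c` terms `u ^ k + y u`, `u < K`, one from each of the residue classes
`0, ..., c - 1` modulo `s` -/
def Rep (k s K : ℕ) (y : ℕ → ℕ) : ℕ → ℕ → Prop
  | 0, σ => σ = 0
  | c + 1, σ => ∃ σ' u, Rep k s K y c σ' ∧ u < K ∧ u % s = c ∧ σ = σ' + u ^ k + y u

lemma rep_mono {k s K : ℕ} {y y' : ℕ → ℕ} : ∀ (c σ : ℕ), (∀ u, u < K → u % s < c → y u = y' u) →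
    Rep k s K y c σ → Rep k s K y' c σ := by
  intro c
  induction c with
  | zero => intro σ _ h; exact h
  | succ c ih =>
    intro σ hy h
    obtain ⟨σ', u, h1, h2, h3, h4⟩ := h
    refine ⟨σ', u, ih σ' (fun v hv hv' => hy v hv (by omega)) h1, h2, h3, ?_⟩
    rw [← hy u h2 (by omega)]
    exact h4

lemma rep_congr {k s K : ℕ} {y y' : ℕ → ℕ} (c σ : ℕ) (h : ∀ u, u < K → u % s < c → y u = y' u) :
    Rep k s K y c σ ↔ Rep k s K y' c σ :=
  ⟨rep_mono c σ h, rep_mono c σ fun u hu hu' => (h u hu hu').symm⟩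

/-- the terms of a representation -/
lemma rep_terms {k s K : ℕ} {y : ℕ → ℕ} : ∀ (c σ : ℕ), Rep k s K y c σ →
    ∃ n : Fin c → ℕ, (∀ i, n i % s = i) ∧ ∑ i, ((n i) ^ k + y (n i)) = σ := by
  intro c
  induction c with
  | zero => intro σ h; exact ⟨fun i => i.elim0, fun i => i.elim0, by simpa using h.symm⟩
  | succ c ih =>
    intro σ h
    obtain ⟨σ', u, h1, h2, h3, h4⟩ := h
    obtain ⟨n, hn, hs⟩ := ih σ' h1
    refine ⟨Fin.snoc n u, ?_, ?_⟩
    · intro i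
      refine Fin.lastCases ?_ (fun j => ?_) i
      · simpa using h3
      · simpa using hn j
    · rw [Fin.sum_univ_castSucc]
      simp only [Fin.snoc_castSucc, Fin.snoc_last]
      rw [hs, h4]
      ring

/-- the terms are distinct -/
lemma inj_of_mod {s c : ℕ} {n : Fin c → ℕ} (h : ∀ i, n i % s = i) : Function.Injective n := by
  intro i j hij
  apply Fin.ext
  rw [← h i, ← h j, hij]

/-- extension by zero -/
def ex (K : ℕ) (x : Fin K → ℕ) : ℕ → ℕ := fun n => if h : n < K then x ⟨n, h⟩ else 0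

lemma ex_apply {K : ℕ} (x : Fin K → ℕ) (u : Fin K) : ex K x u = x u := by
  unfold ex
  rw [dif_pos u.2]

lemma ex_update {K : ℕ} (x : Fin K → ℕ) (u : Fin K) (v n : ℕ) (h : n ≠ u) :
    ex K (Function.update x u v) n = ex K x n := by
  unfold ex
  split_ifs with h1
  · rw [Function.update_of_ne]
    intro e
    apply h
    rw [← e]
  · rfl

/-- the sums of the first classes do not depend on the later classes -/
lemma rep_update {k s K : ℕ} (x : Fin K → ℕ) (u : Fin K) (v c σ : ℕ) (hu : c ≤ (u : ℕ) % s) :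
    Rep k s K (ex K (Function.update x u v)) c σ ↔ Rep k s K (ex K x) c σ := by
  apply rep_congr
  intro n _ hn'
  apply ex_update
  intro e
  rw [e] at hn'
  omega

lemma pow_add_le (u s : ℕ) : ∀ k : ℕ, (u + s) ^ (k + 1) ≤ u ^ (k + 1) + s * (k + 1) * (u + s) ^ k := by
  intro k
  induction k with
  | zero => simp
  | succ k ih =>
    have h1 : u ^ (k + 1) ≤ (u + s) ^ (k + 1) := Nat.pow_le_pow_left (by omega) _
    calc (u + s) ^ (k + 1 + 1) = (u + s) * (u + s) ^ (k + 1) := by ring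
      _ ≤ (u + s) * (u ^ (k + 1) + s * (k + 1) * (u + s) ^ k) := Nat.mul_le_mul_left _ ih
      _ = u ^ (k + 1 + 1) + s * u ^ (k + 1) + s * (k + 1) * (u + s) ^ (k + 1) := by ring
      _ ≤ u ^ (k + 1 + 1) + s * (u + s) ^ (k + 1) + s * (k + 1) * (u + s) ^ (k + 1) := by
          gcongr
      _ = _ := by ring

/-- the largest perturbation -/
noncomputable def wd (β : ℝ) (n : ℕ) : ℕ := ⌊(n : ℝ) ^ β⌋₊

lemma wd_le (β : ℝ) (n : ℕ) : (wd β n : ℝ) ≤ (n : ℝ) ^ β :=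
  Nat.floor_le (Real.rpow_nonneg (Nat.cast_nonneg n) β)

/-- one greedy step -/
lemma greedy_step {k s : ℕ} (hk : 1 ≤ k) (hs : 0 < s) {β η : ℝ} (hβ0 : 0 ≤ β) (hβk : β ≤ k)
    (h1 : (k : ℝ) - 1 ≤ η * k) (h2 : β ≤ η * k) (hη : 0 ≤ η) {c R : ℕ} (hc : c < s)
    (hR : c ^ k + wd β c ≤ R) :
    ∃ u, u % s = c ∧ u ^ k + wd β u ≤ R ∧
      (R : ℝ) - u ^ k ≤ ((k * s + 1) * (1 + s) ^ k : ℝ) * (1 + R) ^ η := by
  classical
  set P : ℕ → Prop := fun u => u % s = c ∧ u ^ k + wd β u ≤ R with hP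
  have hself : ∀ u : ℕ, u ≤ u ^ k := fun u => Nat.le_self_pow (by omega) u
  have hPc : P c := ⟨Nat.mod_eq_of_lt hc, hR⟩
  have hcR : c ≤ R := by have := hself c; omega
  set u := Nat.findGreatest P R with hu
  have hPu : P u := Nat.findGreatest_spec hcR hPc
  have hnext : R < (u + s) ^ k + wd β (u + s) := by
    by_contra hcon
    push Not at hcon
    have h3 : u + s ≤ R := by have := hself (u + s); omega
    have h4 : ¬ P (u + s) := Nat.findGreatest_is_greatest (by omega) h3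
    apply h4
    refine ⟨?_, hcon⟩
    rw [Nat.add_mod_right]
    exact hPu.1
  refine ⟨u, hPu.1, hPu.2, ?_⟩
  obtain ⟨k', rfl⟩ : ∃ k', k = k' + 1 := ⟨k - 1, by omega⟩
  set m : ℝ := max (u : ℝ) 1 with hm
  have hm1 : 1 ≤ m := le_max_right _ _
  have hm0 : 0 < m := by linarith
  have hum : (u : ℝ) ≤ m := le_max_left _ _
  have hmR : m ^ (k' + 1) ≤ 1 + R := by
    rcases le_total (1 : ℝ) u with h | h
    · rw [hm, max_eq_left h]
      have : u ^ (k' + 1) ≤ R := by have := hPu.2; omega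
      have : (u : ℝ) ^ (k' + 1) ≤ R := by exact_mod_cast this
      linarith
    · rw [hm, max_eq_right h, one_pow]
      have : (0 : ℝ) ≤ R := Nat.cast_nonneg _
      linarith
  have hmη : m ^ (η * ((k' + 1 : ℕ) : ℝ)) ≤ (1 + R) ^ η := by
    rw [mul_comm, Real.rpow_mul hm0.le, Real.rpow_natCast]
    exact Real.rpow_le_rpow (by positivity) hmR hη
  have hus : ((u + s : ℕ) : ℝ) ≤ (1 + s) * m := by
    push_cast
    have : (s : ℝ) ≤ s * m := by
      have : (0 : ℝ) ≤ s := Nat.cast_nonneg _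
      nlinarith
    linarith
  have hs1 : (1 : ℝ) ≤ 1 + s := by
    have : (0 : ℝ) ≤ s := Nat.cast_nonneg _
    linarith
  have hA : ((u + s : ℕ) : ℝ) ^ k' ≤ (1 + s) ^ (k' + 1) * m ^ (η * ((k' + 1 : ℕ) : ℝ)) := by
    calc ((u + s : ℕ) : ℝ) ^ k' ≤ ((1 + s) * m) ^ k' := pow_le_pow_left₀ (Nat.cast_nonneg _) hus _
      _ = (1 + s) ^ k' * m ^ (k' : ℝ) := by rw [mul_pow, Real.rpow_natCast]
      _ ≤ (1 + s) ^ (k' + 1) * m ^ (η * ((k' + 1 : ℕ) : ℝ)) := by
          apply mul_le_mul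
          · exact pow_le_pow_right₀ hs1 (by omega)
          · apply Real.rpow_le_rpow_of_exponent_le hm1
            push_cast at h1 ⊢
            linarith
          · positivity
          · positivity
  have hB : (wd β (u + s) : ℝ) ≤ (1 + s) ^ (k' + 1) * m ^ (η * ((k' + 1 : ℕ) : ℝ)) := by
    calc (wd β (u + s) : ℝ) ≤ ((u + s : ℕ) : ℝ) ^ β := wd_le _ _
      _ ≤ ((1 + s) * m) ^ β := Real.rpow_le_rpow (Nat.cast_nonneg _) hus hβ0
      _ = (1 + s : ℝ) ^ β * m ^ β := Real.mul_rpow (by positivity) hm0.le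
      _ ≤ (1 + s : ℝ) ^ ((k' + 1 : ℕ) : ℝ) * m ^ (η * ((k' + 1 : ℕ) : ℝ)) := by
          apply mul_le_mul
          · exact Real.rpow_le_rpow_of_exponent_le hs1 hβk
          · exact Real.rpow_le_rpow_of_exponent_le hm1 h2
          · positivity
          · positivity
      _ = _ := by rw [Real.rpow_natCast]
  have hC : (R : ℝ) ≤ u ^ (k' + 1) + s * (k' + 1) * ((u + s : ℕ) : ℝ) ^ k' + wd β (u + s) := by
    have h3 := pow_add_le u s k'
    have h4 : R ≤ u ^ (k' + 1) + s * (k' + 1) * (u + s) ^ k' + wd β (u + s) := by omega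
    exact_mod_cast h4
  set X : ℝ := (1 + s : ℝ) ^ (k' + 1) * m ^ (η * ((k' + 1 : ℕ) : ℝ)) with hX
  have hX2 : X ≤ (1 + s : ℝ) ^ (k' + 1) * (1 + R) ^ η := by
    rw [hX]
    exact mul_le_mul_of_nonneg_left hmη (by positivity)
  have hD : (R : ℝ) - u ^ (k' + 1) ≤ (s * (k' + 1) + 1) * X := by
    have : (s : ℝ) * (k' + 1) * ((u + s : ℕ) : ℝ) ^ k' ≤ s * (k' + 1) * X :=
      mul_le_mul_of_nonneg_left hA (by positivity)
    linarith
  calc (R : ℝ) - u ^ (k' + 1) ≤ (s * (k' + 1) + 1) * X := hD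
    _ ≤ (s * (k' + 1) + 1) * ((1 + s : ℝ) ^ (k' + 1) * (1 + R) ^ η) :=
        mul_le_mul_of_nonneg_left hX2 (by positivity)
    _ = _ := by push_cast; ring

/-- **The greedy algorithm.** -/
lemma greedy {k s : ℕ} (hk : 1 ≤ k) (hs : 0 < s) {β η : ℝ} (hβ0 : 0 ≤ β) (hβk : β ≤ k)
    (h1 : (k : ℝ) - 1 ≤ η * k) (h2 : β ≤ η * k) (hη : 0 ≤ η) (hη1 : η ≤ 1) : ∀ c ≤ s,
    ∃ A : ℝ, 1 ≤ A ∧ ∃ Q : ℕ, ∀ (K : ℕ) (y : ℕ → ℕ) (t : ℕ), (∀ u < K, y u ≤ wd β u) → Q ≤ t →
      t < K ^ k → ∃ σ, Rep k s K y c σ ∧ σ ≤ t ∧ (1 : ℝ) + t - σ ≤ A * (1 + t) ^ (η ^ c) := by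
  intro c
  induction c with
  | zero =>
    intro _
    refine ⟨1, le_rfl, 0, fun K y t _ _ _ => ⟨0, rfl, Nat.zero_le _, ?_⟩⟩
    simp
  | succ c ih =>
    intro hc
    obtain ⟨A, hA, Q, H⟩ := ih (by omega)
    set q := c ^ k + wd β c with hq
    set C : ℝ := ((k * s + 1) * (1 + s) ^ k : ℝ) with hC
    have hC0 : 0 ≤ C := by positivity
    refine ⟨(C + 1) * (q + A), ?_, Q + q, ?_⟩
    · have : (0 : ℝ) ≤ q := Nat.cast_nonneg _
      nlinarith
    intro K y t hy ht htK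
    obtain ⟨σ', hr, hσ', hrem⟩ := H K y (t - q) hy (by omega) (by omega)
    set R := t - σ' with hR
    have hqR : q ≤ R := by omega
    obtain ⟨u, hu1, hu2, hu3⟩ := greedy_step hk hs hβ0 hβk h1 h2 hη (by omega : c < s) hqR
    have huK : u < K := by
      by_contra hcon
      push Not at hcon
      have : K ^ k ≤ u ^ k := Nat.pow_le_pow_left hcon k
      omega
    have hyu : y u ≤ wd β u := hy u huK
    refine ⟨σ' + u ^ k + y u, ⟨σ', u, hr, huK, hu1, rfl⟩, by omega, ?_⟩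
    have hRr : (R : ℝ) = t - σ' := by rw [hR, Nat.cast_sub (by omega)]
    have hq0 : (0 : ℝ) ≤ q := Nat.cast_nonneg _
    have ht0 : (1 : ℝ) ≤ 1 + t := by
      have : (0 : ℝ) ≤ t := Nat.cast_nonneg _
      linarith
    have hηc : 0 ≤ η ^ c := pow_nonneg hη c
    have hX1 : (1 : ℝ) ≤ (1 + t : ℝ) ^ (η ^ c) := Real.one_le_rpow ht0 hηc
    have hR1 : (1 : ℝ) + R ≤ (q + A) * (1 + t : ℝ) ^ (η ^ c) := by
      have h5 : ((t - q : ℕ) : ℝ) = t - q := Nat.cast_sub (by omega)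
      rw [h5] at hrem
      have h6 : (1 + ((t : ℝ) - q)) ^ (η ^ c) ≤ (1 + t : ℝ) ^ (η ^ c) := by
        apply Real.rpow_le_rpow _ (by linarith) hηc
        have : (q : ℝ) ≤ t := by exact_mod_cast (by omega : q ≤ t)
        linarith
      have h7 : A * (1 + ((t : ℝ) - q)) ^ (η ^ c) ≤ A * (1 + t : ℝ) ^ (η ^ c) :=
        mul_le_mul_of_nonneg_left h6 (by linarith)
      have h8 : (q : ℝ) ≤ q * (1 + t : ℝ) ^ (η ^ c) := le_mul_of_one_le_right hq0 hX1
      rw [add_mul, hRr]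
      linarith
    have hR0 : (0 : ℝ) ≤ R := Nat.cast_nonneg _
    have hRη : (1 + (R : ℝ)) ^ η ≤ (q + A) * (1 + t : ℝ) ^ (η ^ (c + 1)) := by
      calc (1 + (R : ℝ)) ^ η ≤ ((q + A) * (1 + t : ℝ) ^ (η ^ c)) ^ η :=
            Real.rpow_le_rpow (by positivity) hR1 hη
        _ = (q + A) ^ η * (1 + t : ℝ) ^ (η ^ (c + 1)) := by
            rw [Real.mul_rpow (by positivity) (by positivity), ← Real.rpow_mul (by positivity), pow_succ]
        _ ≤ (q + A) * (1 + t : ℝ) ^ (η ^ (c + 1)) := by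
            apply mul_le_mul_of_nonneg_right _ (by positivity)
            calc ((q : ℝ) + A) ^ η ≤ (q + A) ^ (1 : ℝ) :=
                  Real.rpow_le_rpow_of_exponent_le (by linarith) hη1
              _ = q + A := Real.rpow_one _
    have h1R : (1 : ℝ) ≤ (1 + (R : ℝ)) ^ η := Real.one_le_rpow (by linarith) hη
    have hfin : (1 : ℝ) + t - ((σ' + u ^ k + y u : ℕ) : ℝ) ≤ (C + 1) * (1 + R) ^ η := by
      push_cast
      have : (0 : ℝ) ≤ y u := Nat.cast_nonneg _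
      have h9 : (1 : ℝ) + t - (σ' + u ^ k + y u) = 1 + (R - u ^ k) - y u := by rw [hRr]; ring
      rw [h9]
      have h10 : (R : ℝ) - u ^ k ≤ C * (1 + R) ^ η := hu3
      linarith
    calc (1 : ℝ) + t - ((σ' + u ^ k + y u : ℕ) : ℝ) ≤ (C + 1) * (1 + R) ^ η := hfin
      _ ≤ (C + 1) * ((q + A) * (1 + t : ℝ) ^ (η ^ (c + 1))) :=
          mul_le_mul_of_nonneg_left hRη (by positivity)
      _ = _ := by ring

end Pool.Agent.V7H89.WR
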