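import Pool.Agent.V7H89.WR.Union
import Pool.Agent.V7H89.WR.Rep

/-!
# One scale
-/

set_option autoImplicit false

namespace Pool.Agent.V7H89.WR

open Finset

open scoped Classical

/-- the indices of one class at one scale -/
def UU (K b s c : ℕ) : Finset (Fin K) :=
  univ.filter fun u => b ≤ (u : ℕ) ∧ (u : ℕ) < 2 * b ∧ (u : ℕ) % s = c

lemma card_UU {K s B c : ℕ} (hc : c < s) (hK : 2 * (s * B) ≤ K) : B ≤ (UU K (s * B) s c).card := by
  have key : ∀ i, i < B → s * (B + i) + c < 2 * (s * B) ∧ s * B ≤ s * (B + i) + c := by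
    intro i hi
    constructor
    · calc s * (B + i) + c < s * (B + i) + s := by omega
        _ = s * (B + i + 1) := by ring
        _ ≤ s * (2 * B) := Nat.mul_le_mul_left _ (by omega)
        _ = _ := by ring
    · calc s * B ≤ s * (B + i) := Nat.mul_le_mul_left _ (by omega)
        _ ≤ _ := by omega
  have h := card_le_card_of_injOn (s := range B) (t := (UU K (s * B) s c).image (fun u : Fin K => (u : ℕ)))
    (fun i => s * (B + i) + c) (by
      intro i hi
      have hi' : i < B := by simpa using hi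
      obtain ⟨h1, h2⟩ := key i hi'
      show s * (B + i) + c ∈ (((UU K (s * B) s c).image (fun u : Fin K => (u : ℕ))) : Finset ℕ)
      rw [mem_image]
      refine ⟨⟨s * (B + i) + c, by omega⟩, ?_, rfl⟩
      unfold UU
      rw [mem_filter]
      refine ⟨mem_univ _, h2, h1, ?_⟩
      show (s * (B + i) + c) % s = c
      rw [Nat.mul_add_mod, Nat.mod_eq_of_lt hc]) (by
      intro i _ j _ hij
      have hs : 0 < s := by omega
      simp only [add_left_inj] at hij
      have := Nat.eq_of_mul_eq_mul_left hs hij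
      omega)
  rw [card_range] at h
  exact h.trans card_image_le

/-- the sums in a window -/
noncomputable def Wn (k s K c : ℕ) (x : Fin K → ℕ) (a L : ℕ) : Finset ℕ :=
  (Ico a (a + L)).filter fun σ => Rep k s K (ex K x) c σ

/-- all windows contain many sums -/
def DD (k s K c L lo T : ℕ) (m : ℝ) (x : Fin K → ℕ) : Prop :=
  ∀ a, lo ≤ a → a ≤ T → m ≤ ((Wn k s K c x a L).card : ℝ)

lemma Wn_update {k s K c a L : ℕ} (x : Fin K → ℕ) (u : Fin K) (v : ℕ) (hu : c ≤ (u : ℕ) % s) :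
    Wn k s K c (Function.update x u v) a L = Wn k s K c x a L := by
  unfold Wn
  apply filter_congr
  intro σ _
  exact rep_update x u v c σ hu

lemma DD_update {k s K c L lo T : ℕ} {m : ℝ} (x : Fin K → ℕ) (u : Fin K) (v : ℕ)
    (hu : c ≤ (u : ℕ) % s) :
    DD k s K c L lo T m (Function.update x u v) ↔ DD k s K c L lo T m x := by
  unfold DD
  simp only [Wn_update x u v hu]

/-- one more class: windows -/
theorem DD_step {k s K b L lo T c : ℕ} (n : ℕ) {W : Fin K → ℕ} {m Wm : ℝ} (hW : ∀ i, 0 < W i)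
    (hcW : ∀ u : Fin K, b ≤ (u : ℕ) → 2 * L ≤ W u)
    (hWm : ∀ u : Fin K, (u : ℕ) < 2 * b → (W u : ℝ) ≤ Wm) (hWm0 : 0 < Wm) (hL : 0 < L)
    (hLW : (L : ℝ) ≤ 8 * Wm) (hm : 0 < m) :
    (((Sp W).filter fun x => DD k s K c L lo T m x ∧
      ¬ DD k s K (c + 1) L (lo + (2 * b) ^ k + L) T (min ((L : ℝ) / 2) (n * (L * m / (4 * Wm)))) x).card : ℝ)
      ≤ (T + 1) * (2 ^ n * (1 - L / (8 * Wm)) ^ (UU K b s c).card * (Sp W).card) := by
  set S : ℕ → Fin K → (Fin K → ℕ) → Finset ℕ := fun a u x => Wn k s K c x (a - (u : ℕ) ^ k - L) L with hS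
  set sh : Fin K → ℕ := fun u => (u : ℕ) ^ k with hsh
  set U := UU K b s c with hU
  have hmem : ∀ u ∈ U, b ≤ (u : ℕ) ∧ (u : ℕ) < 2 * b ∧ (u : ℕ) % s = c := by
    intro u hu
    rw [hU] at hu
    unfold UU at hu
    exact (mem_filter.1 hu).2
  have hup : ∀ u ∈ U, (u : ℕ) ^ k ≤ (2 * b) ^ k := fun u hu =>
    Nat.pow_le_pow_left (hmem u hu).2.1.le k
  set bad : ℕ → Finset (Fin K → ℕ) := fun a => (Sp W).filter fun x => DD k s K c L lo T m x ∧
    2 * ((BB (Ico a (a + L)) (S a) sh U x).card : ℝ) < ((Ico a (a + L)).card : ℝ) ∧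
    ((BB (Ico a (a + L)) (S a) sh U x).card : ℝ) ≤ n * (((Ico a (a + L)).card : ℝ) * m / (4 * Wm)) with hbad
  have hIc : ∀ a : ℕ, (Ico a (a + L)).card = L := by intro a; rw [Nat.card_Ico]; omega
  have hsub : ((Sp W).filter fun x => DD k s K c L lo T m x ∧
      ¬ DD k s K (c + 1) L (lo + (2 * b) ^ k + L) T (min ((L : ℝ) / 2) (n * (L * m / (4 * Wm)))) x) ⊆
      (((range (T + 1)).filter fun a => lo + (2 * b) ^ k + L ≤ a)).biUnion bad := by
    intro x hx
    obtain ⟨hx1, hx2, hx3⟩ := mem_filter.1 hx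
    unfold DD at hx3
    push Not at hx3
    obtain ⟨a, ha1, ha2, ha3⟩ := hx3
    rw [mem_biUnion]
    refine ⟨a, ?_, ?_⟩
    · rw [mem_filter, mem_range]; exact ⟨by omega, ha1⟩
    rw [hbad]
    simp only [mem_filter]
    have h1 : BB (Ico a (a + L)) (S a) sh U x ⊆ Wn k s K (c + 1) x a L := by
      intro y hy
      obtain ⟨hyI, u, hu, σ, hσ, h⟩ := mem_BB.1 hy
      unfold Wn
      rw [mem_filter]
      refine ⟨hyI, σ, u, ?_, u.2, (hmem u hu).2.2, ?_⟩
      · rw [hS] at hσ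
        exact (mem_filter.1 hσ).2
      · rw [ex_apply]; exact h.symm
    have h2 : ((BB (Ico a (a + L)) (S a) sh U x).card : ℝ) ≤ ((Wn k s K (c + 1) x a L).card : ℝ) := by
      exact_mod_cast card_le_card h1
    have h3 := lt_of_le_of_lt h2 ha3
    rw [hIc]
    refine ⟨hx1, hx2, ?_, ?_⟩
    · have := lt_of_lt_of_le h3 (min_le_left _ _)
      linarith
    · exact (lt_of_lt_of_le h3 (min_le_right _ _)).le
  have hone : ∀ a ∈ ((range (T + 1)).filter fun a => lo + (2 * b) ^ k + L ≤ a), ((bad a).card : ℝ) ≤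
      2 ^ n * (1 - L / (8 * Wm)) ^ U.card * (Sp W).card := by
    intro a ha
    obtain ⟨ha1, ha2⟩ := mem_filter.1 ha
    rw [mem_range] at ha1
    have := union_bound (W := W) (I := Ico a (a + L)) (S := S a) (sh := sh)
      (D := DD k s K c L lo T m) (U := U) (m := m) (Wm := Wm) hW
      (fun x u hu v => DD_update x u v (hmem u hu).2.2.ge)
      (fun x u' _ u hu v => Wn_update x u v (hmem u hu).2.2.ge) hm
      (fun x _ hD u hu => by
        have h4 := hup u hu
        exact hD _ (by omega) (by omega))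
      (fun x _ _ u hu σ hσ y hy => by
        have h4 := hup u hu
        have h5 := hcW u (hmem u hu).1
        rw [hS] at hσ
        have h6 := mem_Ico.1 (mem_filter.1 hσ).1
        have h7 := mem_Ico.1 hy
        refine ⟨y - (u : ℕ) ^ k - σ, ?_, ?_⟩
        · omega
        · show σ + (u : ℕ) ^ k + (y - (u : ℕ) ^ k - σ) = y
          omega)
      (fun u hu => hWm u (hmem u hu).2.1) hWm0 (by rw [hIc]; exact hL) (by rw [hIc]; exact hLW) n
    rw [hIc] at this
    rw [hbad]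
    simp only [hIc]
    exact this
  have hpos : (0 : ℝ) ≤ 2 ^ n * (1 - L / (8 * Wm)) ^ U.card * (Sp W).card := by
    have hq0 : 0 ≤ 1 - (L : ℝ) / (8 * Wm) := by
      rw [sub_nonneg, div_le_one (by positivity)]
      exact hLW
    positivity
  calc _ ≤ (((((range (T + 1)).filter fun a => lo + (2 * b) ^ k + L ≤ a)).biUnion bad).card : ℝ) := by
        exact_mod_cast card_le_card hsub
    _ ≤ ∑ a ∈ ((range (T + 1)).filter fun a => lo + (2 * b) ^ k + L ≤ a), ((bad a).card : ℝ) := by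
        exact_mod_cast card_biUnion_le
    _ ≤ ∑ _a ∈ ((range (T + 1)).filter fun a => lo + (2 * b) ^ k + L ≤ a),
        2 ^ n * (1 - L / (8 * Wm)) ^ U.card * ((Sp W).card : ℝ) := sum_le_sum hone
    _ ≤ ∑ _a ∈ range (T + 1), 2 ^ n * (1 - L / (8 * Wm)) ^ U.card * ((Sp W).card : ℝ) :=
        sum_le_sum_of_subset_of_nonneg (filter_subset _ _) fun _ _ _ => hpos
    _ = _ := by rw [sum_const, card_range, nsmul_eq_mul]; push_cast; ring

/-- the last class: single numbers -/
theorem hit_step {k s K b L lo T c : ℕ} {W : Fin K → ℕ} {m Wm : ℝ} (hW : ∀ i, 0 < W i)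
    (hcW : ∀ u : Fin K, b ≤ (u : ℕ) → 2 * L ≤ W u)
    (hWm : ∀ u : Fin K, (u : ℕ) < 2 * b → (W u : ℝ) ≤ Wm) (hWm0 : 0 < Wm) (hL : 0 < L) (hm : 0 ≤ m)
    (hmW : m ≤ Wm) :
    (((Sp W).filter fun x => DD k s K c L lo T m x ∧ ∃ N, lo + (2 * b) ^ k + L ≤ N ∧ N ≤ T ∧
      ¬ Rep k s K (ex K x) (c + 1) N).card : ℝ)
      ≤ (T + 1) * ((1 - m / Wm) ^ (UU K b s c).card * (Sp W).card) := by
  set S : ℕ → Fin K → (Fin K → ℕ) → Finset ℕ := fun a u x => Wn k s K c x (a - (u : ℕ) ^ k - L) L with hS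
  set sh : Fin K → ℕ := fun u => (u : ℕ) ^ k with hsh
  set U := UU K b s c with hU
  have hmem : ∀ u ∈ U, b ≤ (u : ℕ) ∧ (u : ℕ) < 2 * b ∧ (u : ℕ) % s = c := by
    intro u hu
    rw [hU] at hu
    unfold UU at hu
    exact (mem_filter.1 hu).2
  have hup : ∀ u ∈ U, (u : ℕ) ^ k ≤ (2 * b) ^ k := fun u hu =>
    Nat.pow_le_pow_left (hmem u hu).2.1.le k
  set bad : ℕ → Finset (Fin K → ℕ) := fun a => (Sp W).filter fun x => DD k s K c L lo T m x ∧
    ¬ ∃ u ∈ U, ∃ σ ∈ S a u x, σ + sh u + x u = a with hbad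
  have hsub : ((Sp W).filter fun x => DD k s K c L lo T m x ∧ ∃ N, lo + (2 * b) ^ k + L ≤ N ∧ N ≤ T ∧
      ¬ Rep k s K (ex K x) (c + 1) N) ⊆
      (((range (T + 1)).filter fun a => lo + (2 * b) ^ k + L ≤ a)).biUnion bad := by
    intro x hx
    obtain ⟨hx1, hx2, a, ha1, ha2, ha3⟩ := mem_filter.1 hx
    rw [mem_biUnion]
    refine ⟨a, ?_, ?_⟩
    · rw [mem_filter, mem_range]; exact ⟨by omega, ha1⟩
    rw [hbad]
    simp only [mem_filter]
    refine ⟨hx1, hx2, ?_⟩
    rintro ⟨u, hu, σ, hσ, h⟩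
    apply ha3
    refine ⟨σ, u, ?_, u.2, (hmem u hu).2.2, ?_⟩
    · rw [hS] at hσ
      exact (mem_filter.1 hσ).2
    · rw [ex_apply]; exact h.symm
  have hone : ∀ a ∈ ((range (T + 1)).filter fun a => lo + (2 * b) ^ k + L ≤ a), ((bad a).card : ℝ) ≤
      (1 - m / Wm) ^ U.card * (Sp W).card := by
    intro a ha
    obtain ⟨ha1, ha2⟩ := mem_filter.1 ha
    rw [mem_range] at ha1
    have key := hit_bound (W := W) (S := S a) (sh := sh)
      (D := DD k s K c L lo T m) (U := U) (m := m) (Wm := Wm) a hW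
      (fun x u hu v => DD_update x u v (hmem u hu).2.2.ge)
      (fun x u' _ u hu v => Wn_update x u v (hmem u hu).2.2.ge) hm
      (fun x _ hD u hu => by
        have h4 := hup u hu
        exact hD _ (by omega) (by omega))
      (fun x _ _ u hu σ hσ => by
        have h4 := hup u hu
        have h5 := hcW u (hmem u hu).1
        rw [hS] at hσ
        have h6 := mem_Ico.1 (mem_filter.1 hσ).1
        refine ⟨a - (u : ℕ) ^ k - σ, ?_, ?_⟩
        · omega
        · show σ + (u : ℕ) ^ k + (a - (u : ℕ) ^ k - σ) = a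
          omega)
      (fun u hu => hWm u (hmem u hu).2.1) hWm0 hmW
    rw [hbad]
    convert key using 4
  have hpos : (0 : ℝ) ≤ (1 - m / Wm) ^ U.card * (Sp W).card := by
    have hq0 : 0 ≤ 1 - m / Wm := by
      rw [sub_nonneg, div_le_one (by positivity)]
      exact hmW
    positivity
  calc _ ≤ (((((range (T + 1)).filter fun a => lo + (2 * b) ^ k + L ≤ a)).biUnion bad).card : ℝ) := by
        exact_mod_cast card_le_card hsub
    _ ≤ ∑ a ∈ ((range (T + 1)).filter fun a => lo + (2 * b) ^ k + L ≤ a), ((bad a).card : ℝ) := by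
        exact_mod_cast card_biUnion_le
    _ ≤ ∑ _a ∈ ((range (T + 1)).filter fun a => lo + (2 * b) ^ k + L ≤ a),
        (1 - m / Wm) ^ U.card * ((Sp W).card : ℝ) := sum_le_sum hone
    _ ≤ ∑ _a ∈ range (T + 1), (1 - m / Wm) ^ U.card * ((Sp W).card : ℝ) :=
        sum_le_sum_of_subset_of_nonneg (filter_subset _ _) fun _ _ _ => hpos
    _ = _ := by rw [sum_const, card_range, nsmul_eq_mul]; push_cast; ring

end Pool.Agent.V7H89.WR
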