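import Pool.Agent.V7H89.WR.Avg

/-!
# Unions of random translates
-/

set_option autoImplicit false

namespace Pool.Agent.V7H89.WR

open Finset

open scoped Classical

variable {ι : Type} [Fintype ι] [DecidableEq ι]

/-- the points of `I` which are reached with the indices in `T` -/
noncomputable def BB (I : Finset ℕ) (S : ι → (ι → ℕ) → Finset ℕ) (sh : ι → ℕ) (T : Finset ι)
    (x : ι → ℕ) : Finset ℕ :=
  I.filter fun y => ∃ u ∈ T, ∃ σ ∈ S u x, σ + sh u + x u = y

omit [Fintype ι] [DecidableEq ι] in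
lemma mem_BB {I : Finset ℕ} {S : ι → (ι → ℕ) → Finset ℕ} {sh : ι → ℕ} {T : Finset ι} {x : ι → ℕ}
    {y : ℕ} : y ∈ BB I S sh T x ↔ y ∈ I ∧ ∃ u ∈ T, ∃ σ ∈ S u x, σ + sh u + x u = y := by
  unfold BB
  exact mem_filter

/-- the points reached with one index and the value `v` -/
noncomputable def Nw (I : Finset ℕ) (S : Finset ℕ) (c v : ℕ) : Finset ℕ :=
  I.filter fun y => ∃ σ ∈ S, σ + c + v = y

lemma card_nw_le (I S : Finset ℕ) (c v : ℕ) : (Nw I S c v).card ≤ S.card := by
  have h : Nw I S c v ⊆ S.image fun σ => σ + c + v := by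
    intro y hy
    unfold Nw at hy
    rw [mem_filter] at hy
    obtain ⟨_, σ, hσ, h⟩ := hy
    exact mem_image.2 ⟨σ, hσ, h⟩
  exact (card_le_card h).trans card_image_le

/-- the total number of new points -/
lemma sum_nw {I S B : Finset ℕ} {c w : ℕ} (hB : B ⊆ I)
    (hcov : ∀ σ ∈ S, ∀ y ∈ I, ∃ v < w, σ + c + v = y) :
    (I.card - B.card) * S.card ≤ ∑ v ∈ range w, (Nw I S c v \ B).card := by
  have h1 : ∀ v, (Nw I S c v \ B).card = ∑ y ∈ I \ B, if (∃ σ ∈ S, σ + c + v = y) then 1 else 0 := by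
    intro v
    rw [← card_filter]
    congr 1
    ext y
    unfold Nw
    simp only [mem_sdiff, mem_filter]
    tauto
  simp only [h1]
  rw [sum_comm]
  have h2 : ∀ y ∈ I \ B, S.card ≤ ∑ v ∈ range w, if (∃ σ ∈ S, σ + c + v = y) then 1 else 0 := by
    intro y hy
    rw [← card_filter]
    have hyI := (mem_sdiff.1 hy).1
    refine card_le_card_of_injOn (fun σ => y - c - σ) ?_ ?_
    · intro σ hσ
      obtain ⟨v, hv, h⟩ := hcov σ hσ y hyI
      have e : y - c - σ = v := by omega
      show y - c - σ ∈ ((range w).filter fun v => ∃ σ ∈ S, σ + c + v = y : Finset ℕ)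
      rw [mem_filter, mem_range, e]
      exact ⟨hv, σ, hσ, h⟩
    · intro σ hσ σ' hσ' h
      obtain ⟨v, hv, h1⟩ := hcov σ hσ y hyI
      obtain ⟨v', hv', h2⟩ := hcov σ' hσ' y hyI
      simp only at h
      omega
  calc (I.card - B.card) * S.card = ∑ _y ∈ I \ B, S.card := by
        rw [sum_const, card_sdiff_of_subset hB, smul_eq_mul]
    _ ≤ _ := sum_le_sum h2

/-- many values give many new points -/
lemma many_good {I S B : Finset ℕ} {c w : ℕ} {m Wm : ℝ} (hB : B ⊆ I)
    (hcov : ∀ σ ∈ S, ∀ y ∈ I, ∃ v < w, σ + c + v = y) (hm : 0 < m) (hS : m ≤ S.card)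
    (hw : (w : ℝ) ≤ Wm) (hWm : 0 < Wm) (hB2 : 2 * (B.card : ℝ) ≤ I.card) :
    (I.card : ℝ) / 4 ≤ (((range w).filter fun v =>
      (I.card : ℝ) * m / (4 * Wm) ≤ ((Nw I S c v \ B).card : ℝ)).card : ℝ) := by
  set t : ℝ := (I.card : ℝ) * m / (4 * Wm) with ht
  set G := (range w).filter fun v => t ≤ ((Nw I S c v \ B).card : ℝ) with hG
  have ht0 : 0 ≤ t := by positivity
  have hS0 : (0 : ℝ) < S.card := lt_of_lt_of_le hm hS
  have h1 : ((I.card - B.card : ℕ) : ℝ) * S.card ≤ ∑ v ∈ range w, ((Nw I S c v \ B).card : ℝ) := by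
    exact_mod_cast sum_nw hB hcov
  have h2 : ∑ v ∈ range w, ((Nw I S c v \ B).card : ℝ) ≤ G.card * S.card + w * t := by
    rw [← sum_filter_add_sum_filter_not (range w) fun v => t ≤ ((Nw I S c v \ B).card : ℝ)]
    refine add_le_add ?_ ?_
    · rw [← nsmul_eq_mul]
      refine sum_le_card_nsmul _ _ _ fun v _ => ?_
      exact_mod_cast (card_le_card sdiff_subset).trans (card_nw_le I S c v)
    · calc _ ≤ (((range w).filter fun v => ¬ t ≤ ((Nw I S c v \ B).card : ℝ)).card : ℝ) * t := by
            rw [← nsmul_eq_mul]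
            refine sum_le_card_nsmul _ _ _ fun v hv => ?_
            exact (not_le.1 (mem_filter.1 hv).2).le
        _ ≤ w * t := by
            apply mul_le_mul_of_nonneg_right _ ht0
            have := card_filter_le (range w) fun v => ¬ t ≤ ((Nw I S c v \ B).card : ℝ)
            rw [card_range] at this
            exact_mod_cast this
  have h3 : (w : ℝ) * t ≤ I.card * S.card / 4 := by
    calc (w : ℝ) * t ≤ Wm * t := mul_le_mul_of_nonneg_right hw ht0
      _ = I.card * m / 4 := by rw [ht]; field_simp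
      _ ≤ _ := by gcongr
  have h4 : (I.card : ℝ) / 2 ≤ ((I.card - B.card : ℕ) : ℝ) := by
    rw [Nat.cast_sub (card_le_card hB)]
    linarith
  have h5 : (I.card : ℝ) / 2 * S.card ≤ ((I.card - B.card : ℕ) : ℝ) * S.card :=
    mul_le_mul_of_nonneg_right h4 hS0.le
  have h6 : (I.card : ℝ) / 4 * S.card ≤ G.card * S.card := by linarith
  exact le_of_mul_le_mul_right h6 hS0

/-- the potential -/
noncomputable def ZZ (I : Finset ℕ) (S : ι → (ι → ℕ) → Finset ℕ) (sh : ι → ℕ) (D : (ι → ℕ) → Prop)
    (t : ℝ) (T : Finset ι) (x : ι → ℕ) : ℝ :=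
  if D x ∧ 2 * ((BB I S sh T x).card : ℝ) < I.card then (1 / 2 : ℝ) ^ ((BB I S sh T x).card / t) else 0

omit [Fintype ι] [DecidableEq ι] in
lemma ZZ_nonneg (I : Finset ℕ) (S : ι → (ι → ℕ) → Finset ℕ) (sh : ι → ℕ) (D : (ι → ℕ) → Prop)
    (t : ℝ) (T : Finset ι) (x : ι → ℕ) : 0 ≤ ZZ I S sh D t T x := by
  unfold ZZ
  split_ifs
  · positivity
  · exact le_rfl

lemma BB_insert {I : Finset ℕ} {S : ι → (ι → ℕ) → Finset ℕ} {sh : ι → ℕ} {U T : Finset ι} {u : ι}
    (hu : u ∈ U) (hT : T ⊆ U) (huT : u ∉ T)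
    (hSU : ∀ x, ∀ u' ∈ U, ∀ u ∈ U, ∀ v, S u' (Function.update x u v) = S u' x) (x : ι → ℕ) (v : ℕ) :
    BB I S sh (insert u T) (Function.update x u v) = BB I S sh T x ∪ Nw I (S u x) (sh u) v := by
  ext y
  unfold BB Nw
  simp only [mem_filter, mem_union, mem_insert]
  constructor
  · rintro ⟨hy, w, hw | hw, σ, hσ, h⟩
    · subst hw
      rw [hSU x w hu w hu v] at hσ
      rw [Function.update_self] at h
      exact Or.inr ⟨hy, σ, hσ, h⟩
    · rw [hSU x w (hT hw) u hu v] at hσ
      have hne : w ≠ u := fun e => huT (e ▸ hw)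
      rw [Function.update_of_ne hne] at h
      exact Or.inl ⟨hy, w, hw, σ, hσ, h⟩
  · rintro (⟨hy, w, hw, σ, hσ, h⟩ | ⟨hy, σ, hσ, h⟩)
    · have hne : w ≠ u := fun e => huT (e ▸ hw)
      refine ⟨hy, w, Or.inr hw, σ, ?_, ?_⟩
      · rw [hSU x w (hT hw) u hu v]; exact hσ
      · rw [Function.update_of_ne hne]; exact h
    · refine ⟨hy, u, Or.inl rfl, σ, ?_, ?_⟩
      · rw [hSU x u hu u hu v]; exact hσ
      · rw [Function.update_self]; exact h

variable {W : ι → ℕ} {I : Finset ℕ} {S : ι → (ι → ℕ) → Finset ℕ} {sh : ι → ℕ} {D : (ι → ℕ) → Prop}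
  {U : Finset ι} {m Wm : ℝ}

lemma ZZ_step (hDU : ∀ x, ∀ u ∈ U, ∀ v, D (Function.update x u v) ↔ D x)
    (hSU : ∀ x, ∀ u' ∈ U, ∀ u ∈ U, ∀ v, S u' (Function.update x u v) = S u' x) (hm : 0 < m)
    (hS : ∀ x ∈ Sp W, D x → ∀ u ∈ U, m ≤ ((S u x).card : ℝ))
    (hcov : ∀ x ∈ Sp W, D x → ∀ u ∈ U, ∀ σ ∈ S u x, ∀ y ∈ I, ∃ v < W u, σ + sh u + v = y)
    (hWm : ∀ u ∈ U, (W u : ℝ) ≤ Wm) (hWm0 : 0 < Wm) (hI : 0 < I.card) {T : Finset ι} (hT : T ⊆ U)
    {u : ι} (hu : u ∈ U) (huT : u ∉ T) (x : ι → ℕ) (hx : x ∈ Sp W) :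
    ∑ v ∈ range (W u), ZZ I S sh D (I.card * m / (4 * Wm)) (insert u T) (Function.update x u v) ≤
      (1 - I.card / (8 * Wm)) * W u * ZZ I S sh D (I.card * m / (4 * Wm)) T x := by
  set t : ℝ := (I.card : ℝ) * m / (4 * Wm) with ht
  have hI0 : (0 : ℝ) < I.card := by exact_mod_cast hI
  have ht0 : 0 < t := by positivity
  have hBI : BB I S sh T x ⊆ I := filter_subset _ _
  by_cases hc : D x ∧ 2 * ((BB I S sh T x).card : ℝ) < I.card
  · obtain ⟨hD, hB⟩ := hc
    have hZ : ZZ I S sh D t T x = (1 / 2 : ℝ) ^ ((BB I S sh T x).card / t) := if_pos ⟨hD, hB⟩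
    set z := ZZ I S sh D t T x with hz
    have hz0 : 0 ≤ z := by rw [hZ]; positivity
    set G := (range (W u)).filter fun v => t ≤ ((Nw I (S u x) (sh u) v \ BB I S sh T x).card : ℝ) with hG
    have hGc : (I.card : ℝ) / 4 ≤ (G.card : ℝ) :=
      many_good hBI (hcov x hx hD u hu) hm (hS x hx hD u hu) (hWm u hu) hWm0 hB.le
    have hcard : ∀ v, ((BB I S sh (insert u T) (Function.update x u v)).card : ℝ) =
        (BB I S sh T x).card + (Nw I (S u x) (sh u) v \ BB I S sh T x).card := by
      intro v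
      rw [BB_insert hu hT huT hSU x v]
      have h1 := card_sdiff_add_card (Nw I (S u x) (sh u) v) (BB I S sh T x)
      rw [union_comm] at h1
      have h2 : (BB I S sh T x ∪ Nw I (S u x) (sh u) v).card =
        (BB I S sh T x).card + (Nw I (S u x) (sh u) v \ BB I S sh T x).card := by omega
      exact_mod_cast h2
    have hgen : ∀ v, ZZ I S sh D t (insert u T) (Function.update x u v) ≤ z := by
      intro v
      rw [hZ]
      unfold ZZ
      split_ifs with h
      · apply Real.rpow_le_rpow_of_exponent_ge (by norm_num) (by norm_num)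
        rw [hcard v]
        gcongr
        linarith [Nat.cast_nonneg (α := ℝ) (Nw I (S u x) (sh u) v \ BB I S sh T x).card]
      · positivity
    have hgood : ∀ v ∈ G, ZZ I S sh D t (insert u T) (Function.update x u v) ≤ z / 2 := by
      intro v hv
      have hv2 := (mem_filter.1 hv).2
      rw [hZ]
      unfold ZZ
      split_ifs with h
      · calc (1 / 2 : ℝ) ^ (((BB I S sh (insert u T) (Function.update x u v)).card : ℝ) / t)
            ≤ (1 / 2 : ℝ) ^ (((BB I S sh T x).card : ℝ) / t + 1) := by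
              apply Real.rpow_le_rpow_of_exponent_ge (by norm_num) (by norm_num)
              rw [hcard v, add_div]
              have : 1 ≤ ((Nw I (S u x) (sh u) v \ BB I S sh T x).card : ℝ) / t := by
                rw [le_div_iff₀ ht0]; linarith
              linarith
          _ = _ := by
              rw [Real.rpow_add (by norm_num), Real.rpow_one]
              ring
      · positivity
    have hsum : ∑ v ∈ range (W u), ZZ I S sh D t (insert u T) (Function.update x u v) ≤
        G.card * (z / 2) + (W u - G.card) * z := by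
      rw [← sum_filter_add_sum_filter_not (range (W u)) fun v =>
        t ≤ ((Nw I (S u x) (sh u) v \ BB I S sh T x).card : ℝ)]
      refine add_le_add ?_ ?_
      · rw [← nsmul_eq_mul]
        exact sum_le_card_nsmul _ _ _ fun v hv => hgood v hv
      · have hcc : (((range (W u)).filter fun v =>
            ¬ t ≤ ((Nw I (S u x) (sh u) v \ BB I S sh T x).card : ℝ)).card : ℝ) = W u - G.card := by
          have h1 := card_filter_add_card_filter_not (s := range (W u)) fun v =>
            t ≤ ((Nw I (S u x) (sh u) v \ BB I S sh T x).card : ℝ)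
          rw [card_range] at h1
          have h2 : (G.card : ℝ) + (((range (W u)).filter fun v =>
            ¬ t ≤ ((Nw I (S u x) (sh u) v \ BB I S sh T x).card : ℝ)).card : ℝ) = W u := by
            exact_mod_cast h1
          linarith
        rw [← hcc, ← nsmul_eq_mul]
        exact sum_le_card_nsmul _ _ _ fun v _ => hgen v
    refine hsum.trans ?_
    have hWu : (W u : ℝ) * (I.card / (8 * Wm)) ≤ I.card / 8 := by
      calc (W u : ℝ) * (I.card / (8 * Wm)) ≤ Wm * (I.card / (8 * Wm)) :=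
            mul_le_mul_of_nonneg_right (hWm u hu) (by positivity)
        _ = _ := by field_simp
    have h7 : (G.card : ℝ) * (z / 2) + (W u - G.card) * z = (W u - G.card / 2) * z := by ring
    rw [h7]
    apply mul_le_mul_of_nonneg_right _ hz0
    have h8 : (1 - (I.card : ℝ) / (8 * Wm)) * W u = W u - W u * (I.card / (8 * Wm)) := by ring
    rw [h8]
    linarith
  · have hZ : ZZ I S sh D t T x = 0 := if_neg hc
    rw [hZ, mul_zero]
    apply le_of_eq
    apply sum_eq_zero
    intro v _
    unfold ZZ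
    apply if_neg
    rintro ⟨h1, h2⟩
    apply hc
    refine ⟨(hDU x u hu v).1 h1, lt_of_le_of_lt ?_ h2⟩
    rw [BB_insert hu hT huT hSU x v]
    have := card_le_card (subset_union_left (s₁ := BB I S sh T x) (s₂ := Nw I (S u x) (sh u) v))
    have h3 : ((BB I S sh T x).card : ℝ) ≤ ((BB I S sh T x ∪ Nw I (S u x) (sh u) v).card : ℝ) := by
      exact_mod_cast this
    linarith

/-- **Random unions.** -/
theorem union_bound (hW : ∀ i, 0 < W i) (hDU : ∀ x, ∀ u ∈ U, ∀ v, D (Function.update x u v) ↔ D x)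
    (hSU : ∀ x, ∀ u' ∈ U, ∀ u ∈ U, ∀ v, S u' (Function.update x u v) = S u' x) (hm : 0 < m)
    (hS : ∀ x ∈ Sp W, D x → ∀ u ∈ U, m ≤ ((S u x).card : ℝ))
    (hcov : ∀ x ∈ Sp W, D x → ∀ u ∈ U, ∀ σ ∈ S u x, ∀ y ∈ I, ∃ v < W u, σ + sh u + v = y)
    (hWm : ∀ u ∈ U, (W u : ℝ) ≤ Wm) (hWm0 : 0 < Wm) (hI : 0 < I.card) (hIW : (I.card : ℝ) ≤ 8 * Wm)
    (n : ℕ) :
    (((Sp W).filter fun x => D x ∧ 2 * ((BB I S sh U x).card : ℝ) < I.card ∧
      ((BB I S sh U x).card : ℝ) ≤ n * (I.card * m / (4 * Wm))).card : ℝ) ≤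
      2 ^ n * (1 - I.card / (8 * Wm)) ^ U.card * (Sp W).card := by
  set t : ℝ := (I.card : ℝ) * m / (4 * Wm) with ht
  have hI0 : (0 : ℝ) < I.card := by exact_mod_cast hI
  have ht0 : 0 < t := by positivity
  have hq0 : 0 ≤ 1 - (I.card : ℝ) / (8 * Wm) := by
    rw [sub_nonneg, div_le_one (by positivity)]
    exact hIW
  have key : ∀ T : Finset ι, T ⊆ U → ∑ x ∈ Sp W, ZZ I S sh D t T x ≤
      (1 - I.card / (8 * Wm)) ^ T.card * (Sp W).card := by
    intro T
    induction T using Finset.induction_on with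
    | empty =>
      intro _
      rw [card_empty, pow_zero, one_mul]
      calc ∑ x ∈ Sp W, ZZ I S sh D t ∅ x ≤ ∑ _x ∈ Sp W, (1 : ℝ) := by
            apply sum_le_sum
            intro x _
            unfold ZZ
            split_ifs
            · exact Real.rpow_le_one (by norm_num) (by norm_num) (by positivity)
            · norm_num
        _ = _ := by simp
    | insert u T huT ih =>
      intro hT
      have hu : u ∈ U := hT (mem_insert_self _ _)
      have hT' : T ⊆ U := (subset_insert _ _).trans hT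
      have h1 := step_le hW u (ZZ I S sh D t T) (ZZ I S sh D t (insert u T))
        (1 - I.card / (8 * Wm)) (fun x hx => ZZ_step hDU hSU hm hS hcov hWm hWm0 hI hT' hu huT x hx)
      refine h1.trans ?_
      rw [card_insert_of_notMem huT, pow_succ]
      calc (1 - (I.card : ℝ) / (8 * Wm)) * ∑ x ∈ Sp W, ZZ I S sh D t T x
          ≤ (1 - (I.card : ℝ) / (8 * Wm)) * ((1 - I.card / (8 * Wm)) ^ T.card * (Sp W).card) :=
            mul_le_mul_of_nonneg_left (ih hT') hq0
        _ = _ := by ring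
  have h2 := key U le_rfl
  have h3 : (((Sp W).filter fun x => D x ∧ 2 * ((BB I S sh U x).card : ℝ) < I.card ∧
      ((BB I S sh U x).card : ℝ) ≤ n * t).card : ℝ) * (1 / 2) ^ n ≤ ∑ x ∈ Sp W, ZZ I S sh D t U x := by
    rw [← nsmul_eq_mul]
    refine (card_nsmul_le_sum _ (fun x => ZZ I S sh D t U x) _ ?_).trans
      (sum_le_sum_of_subset_of_nonneg (filter_subset _ _) fun x _ _ => ZZ_nonneg _ _ _ _ _ _ _)
    intro x hx
    obtain ⟨-, hD, hB, hn⟩ := mem_filter.1 hx
    have e : ZZ I S sh D t U x = (1 / 2 : ℝ) ^ ((BB I S sh U x).card / t) := if_pos ⟨hD, hB⟩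
    show (1 / 2 : ℝ) ^ n ≤ ZZ I S sh D t U x
    rw [e, ← Real.rpow_natCast]
    apply Real.rpow_le_rpow_of_exponent_ge (by norm_num) (by norm_num)
    rw [div_le_iff₀ ht0]
    exact hn
  have h4 : (0 : ℝ) < (1 / 2) ^ n := by positivity
  have h5 : (2 : ℝ) ^ n * (1 / 2) ^ n = 1 := by rw [← mul_pow]; norm_num
  have h6 := h3.trans h2
  calc (((Sp W).filter fun x => D x ∧ 2 * ((BB I S sh U x).card : ℝ) < I.card ∧
      ((BB I S sh U x).card : ℝ) ≤ n * t).card : ℝ)
      = 2 ^ n * ((((Sp W).filter fun x => D x ∧ 2 * ((BB I S sh U x).card : ℝ) < I.card ∧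
      ((BB I S sh U x).card : ℝ) ≤ n * t).card : ℝ) * (1 / 2) ^ n) := by
        rw [mul_left_comm, h5, mul_one]
    _ ≤ 2 ^ n * ((1 - I.card / (8 * Wm)) ^ U.card * (Sp W).card) :=
        mul_le_mul_of_nonneg_left h6 (by positivity)
    _ = _ := by ring

/-- **Hitting one point.** -/
theorem hit_bound (N : ℕ) (hW : ∀ i, 0 < W i)
    (hDU : ∀ x, ∀ u ∈ U, ∀ v, D (Function.update x u v) ↔ D x)
    (hSU : ∀ x, ∀ u' ∈ U, ∀ u ∈ U, ∀ v, S u' (Function.update x u v) = S u' x) (hm : 0 ≤ m)
    (hS : ∀ x ∈ Sp W, D x → ∀ u ∈ U, m ≤ ((S u x).card : ℝ))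
    (hcov : ∀ x ∈ Sp W, D x → ∀ u ∈ U, ∀ σ ∈ S u x, ∃ v < W u, σ + sh u + v = N)
    (hWm : ∀ u ∈ U, (W u : ℝ) ≤ Wm) (hWm0 : 0 < Wm) (hmW : m ≤ Wm) :
    (((Sp W).filter fun x => D x ∧ ¬ ∃ u ∈ U, ∃ σ ∈ S u x, σ + sh u + x u = N).card : ℝ) ≤
      (1 - m / Wm) ^ U.card * (Sp W).card := by
  have hq0 : 0 ≤ 1 - m / Wm := by
    rw [sub_nonneg, div_le_one hWm0]
    exact hmW
  set Z : Finset ι → (ι → ℕ) → ℝ := fun T x =>
    if D x ∧ ¬ ∃ u ∈ T, ∃ σ ∈ S u x, σ + sh u + x u = N then 1 else 0 with hZ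
  have key : ∀ T : Finset ι, T ⊆ U → ∑ x ∈ Sp W, Z T x ≤ (1 - m / Wm) ^ T.card * (Sp W).card := by
    intro T
    induction T using Finset.induction_on with
    | empty =>
      intro _
      rw [card_empty, pow_zero, one_mul]
      calc ∑ x ∈ Sp W, Z ∅ x ≤ ∑ _x ∈ Sp W, (1 : ℝ) := by
            apply sum_le_sum
            intro x _
            simp only [hZ]
            split_ifs <;> norm_num
        _ = _ := by simp
    | insert u T huT ih =>
      intro hT
      have hu : u ∈ U := hT (mem_insert_self _ _)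
      have hT' : T ⊆ U := (subset_insert _ _).trans hT
      have h1 := step_le hW u (Z T) (Z (insert u T)) (1 - m / Wm) (fun x hx => by
        have hWu := hWm u hu
        have hWu0 : (0 : ℝ) < W u := by exact_mod_cast hW u
        by_cases hc : D x ∧ ¬ ∃ u ∈ T, ∃ σ ∈ S u x, σ + sh u + x u = N
        · have e1 : Z T x = 1 := if_pos hc
          rw [e1, mul_one]
          -- the bad values of `v`
          have h2 : ∑ v ∈ range (W u), Z (insert u T) (Function.update x u v) ≤
              (((range (W u)).filter fun v => ¬ ∃ σ ∈ S u x, σ + sh u + v = N).card : ℝ) := by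
            rw [card_filter]
            push_cast
            apply sum_le_sum
            intro v _
            simp only [hZ]
            by_cases h3 : ∃ σ ∈ S u x, σ + sh u + v = N
            · rw [if_neg (by
                rintro ⟨-, h4⟩
                apply h4
                obtain ⟨σ, hσ, h5⟩ := h3
                refine ⟨u, mem_insert_self _ _, σ, ?_, ?_⟩
                · rw [hSU x u hu u hu v]; exact hσ
                · rw [Function.update_self]; exact h5)]
              split_ifs <;> norm_num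
            · rw [if_pos h3]
              split_ifs <;> norm_num
          have h3 : (S u x).card ≤ ((range (W u)).filter fun v => ∃ σ ∈ S u x, σ + sh u + v = N).card := by
            refine card_le_card_of_injOn (fun σ => N - sh u - σ) ?_ ?_
            · intro σ hσ
              obtain ⟨v, hv, h⟩ := hcov x hx hc.1 u hu σ hσ
              have e : N - sh u - σ = v := by omega
              show N - sh u - σ ∈ ((range (W u)).filter fun v => ∃ σ ∈ S u x, σ + sh u + v = N : Finset ℕ)
              rw [mem_filter, mem_range, e]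
              exact ⟨hv, σ, hσ, h⟩
            · intro σ hσ σ' hσ' h
              obtain ⟨v, hv, h1⟩ := hcov x hx hc.1 u hu σ hσ
              obtain ⟨v', hv', h2⟩ := hcov x hx hc.1 u hu σ' hσ'
              simp only at h
              omega
          have h4 := card_filter_add_card_filter_not (s := range (W u)) fun v =>
            ∃ σ ∈ S u x, σ + sh u + v = N
          rw [card_range] at h4
          have h5 : (((range (W u)).filter fun v => ¬ ∃ σ ∈ S u x, σ + sh u + v = N).card : ℝ) ≤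
              W u - (S u x).card := by
            have h6 : ((range (W u)).filter fun v => ¬ ∃ σ ∈ S u x, σ + sh u + v = N).card +
              (S u x).card ≤ W u := by omega
            have h7 : (((range (W u)).filter fun v => ¬ ∃ σ ∈ S u x, σ + sh u + v = N).card : ℝ) +
              (S u x).card ≤ W u := by exact_mod_cast h6
            linarith
          have h6 := hS x hx hc.1 u hu
          have h7 : (W u : ℝ) * (m / Wm) ≤ m := by
            calc (W u : ℝ) * (m / Wm) ≤ Wm * (m / Wm) :=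
                  mul_le_mul_of_nonneg_right hWu (by positivity)
              _ = m := by field_simp
          have h8 : (1 - m / Wm) * (W u : ℝ) = W u - W u * (m / Wm) := by ring
          rw [h8]
          linarith
        · have e1 : Z T x = 0 := if_neg hc
          rw [e1, mul_zero]
          apply le_of_eq
          apply sum_eq_zero
          intro v _
          apply if_neg
          rintro ⟨h2, h3⟩
          apply hc
          refine ⟨(hDU x u hu v).1 h2, fun h4 => h3 ?_⟩
          obtain ⟨w, hw, σ, hσ, h5⟩ := h4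
          have hne : w ≠ u := fun e => huT (e ▸ hw)
          refine ⟨w, mem_insert_of_mem hw, σ, ?_, ?_⟩
          · rw [hSU x w (hT' hw) u hu v]; exact hσ
          · rw [Function.update_of_ne hne]; exact h5)
      refine h1.trans ?_
      rw [card_insert_of_notMem huT, pow_succ]
      calc (1 - m / Wm) * ∑ x ∈ Sp W, Z T x
          ≤ (1 - m / Wm) * ((1 - m / Wm) ^ T.card * (Sp W).card) :=
            mul_le_mul_of_nonneg_left (ih hT') hq0
        _ = _ := by ring
  have h2 := key U le_rfl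
  refine le_trans (le_of_eq ?_) h2
  rw [card_filter]
  push_cast
  rfl

end Pool.Agent.V7H89.WR
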